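import Pool.Agent.H70.PC.Nest
import Pool.Agent.H42.PB.Ext

/-!
# Plan C: boxes in the space of directions at the exact points: definitions, statements

A box has a chart `i0`, a slope `a` (a function of the sample), and the precisions `q ≤ n` of the
coordinates `v i0` and `v (oth i0) - a * v i0`.
-/

set_option autoImplicit false

namespace Pool.PC

open Finset Real
open Pool.Agent.H49.Ent Pool.Agent.H32.Dense Pool.STK Pool.KA Pool.K2S Pool.KSAT

variable {m J : ℕ}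

/-- The samples of positive probability in the event. -/
def On (F : Fam m J) (A : F.Ω → Prop) (ω : F.Ω) : Prop := 0 < F.p ω ∧ A ω

open Classical in
/-- On `A`, the function `o` has at most `N` values, given `P`. -/
def Cnt (F : Fam m J) (A : F.Ω → Prop) {α β : Type} (P : F.Ω → α) (o : F.Ω → β) (N : ℝ) : Prop :=
  ∀ ω₀, On F A ω₀ →
    (((univ.filter fun ω => On F A ω ∧ P ω = P ω₀).image o).card : ℝ) ≤ N

/-- On `A`, the function `P` determines `o`. -/
def DetA (F : Fam m J) (A : F.Ω → Prop) {α β : Type} (P : F.Ω → α) (o : F.Ω → β) : Prop :=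
  ∀ ω ω', On F A ω → On F A ω' → P ω = P ω' → o ω = o ω'

/-- The real function `a` is closed to `r` digits on windows of length `w`: up to `2 / 2 ^ r`, it
is determined by the line and the window. -/
def Clo (F : Fam m J) (A : F.Ω → Prop) (a : F.Ω → ℝ) (w r : ℕ) : Prop :=
  ∀ ω ω', On F A ω → On F A ω' → slam F w ω = slam F w ω' → |a ω - a ω'| ≤ 2 / 2 ^ r

/-- The exact point. -/
noncomputable def pt (F : Fam m J) (ω : F.Ω) : (Fin m → ℤ) × (ℕ × F.ζ) := (F.X J ω, F.W ω)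

/-- The other coordinate. -/
def oth (i : Fin 2) : Fin 2 := if i = 0 then 1 else 0

/-- A box at the exact points: the chart, the slope, the precisions. -/
structure Bx (F : Fam 2 J) where
  /-- the chart -/
  i0 : Fin 2
  /-- the slope -/
  a : F.Ω → ℝ
  /-- the precision of the coordinate of the chart -/
  q : ℕ
  /-- the precision of the other coordinate -/
  n : ℕ

section bx

variable {F : Fam 2 J}

/-- The frame as a vector. -/
def Bx.z (B : Bx F) (ω : F.Ω) (i : Fin 2) : ℝ := if i = B.i0 then 0 else B.a ω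

/-- The second coordinate of a vector. -/
def Bx.pr (B : Bx F) (ω : F.Ω) (v : Fin 2 → ℝ) : ℝ := v (oth B.i0) - B.a ω * v B.i0

/-- The vector is in the box, enlarged by the factor `C`. -/
def Bx.In (B : Bx F) (ω : F.Ω) (C : ℝ) (v : Fin 2 → ℝ) : Prop :=
  |v B.i0| ≤ C / 2 ^ B.q ∧ |B.pr ω v| ≤ C / 2 ^ B.n

/-- The label of the box: the slope and the cells of the direction. -/
noncomputable def Bx.lab (B : Bx F) (ω : F.Ω) : ℝ × (ℤ × ℤ) :=
  (B.a ω, (⌊(2 : ℝ) ^ B.q * F.d ω B.i0⌋, ⌊(2 : ℝ) ^ B.n * B.pr ω (F.d ω)⌋))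

/-- The zoomed direction in the box, coordinate of the chart. -/
noncomputable def Bx.om0 (B : Bx F) (ω : F.Ω) : ℝ := Int.fract ((2 : ℝ) ^ B.q * F.d ω B.i0)

/-- The zoomed direction in the box, second coordinate. -/
noncomputable def Bx.om1 (B : Bx F) (ω : F.Ω) : ℝ := Int.fract ((2 : ℝ) ^ B.n * B.pr ω (F.d ω))

/-- Admissible boxes. -/
structure Bx.Ok (B : Bx F) (A : F.Ω → Prop) : Prop where
  le : B.q ≤ B.n
  leJ : B.n ≤ J
  sl : ∀ ω, On F A ω → |B.a ω| ≤ 1

/-- The box `B'` is inside the box `B`. -/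
def Bx.Sub (B' B : Bx F) (A : F.Ω → Prop) : Prop :=
  ∀ ω, On F A ω → ∀ v : Fin 2 → ℝ, B'.In ω 1 v → B.In ω 1 v

/-- `g` more digits (at most `J`) in both directions, the same frame. -/
def Bx.sh (B : Bx F) (g : ℕ) : Bx F where
  i0 := B.i0
  a := B.a
  q := min (B.q + g) J
  n := min (B.n + g) J

/-- **The fans are near lines**: on `A`, the zoomed directions are within `2 ^ (-h)` of a line which
is a function of `P`. -/
def NearLine (F : Fam 2 J) (B : Bx F) (A : F.Ω → Prop) {α : Type} (P : F.Ω → α) (h : ℕ) : Prop :=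
  ∃ lam mu nu : F.Ω → ℝ, DetA F A P (fun ω => (lam ω, (mu ω, nu ω))) ∧ ∀ ω, On F A ω →
    |lam ω| ≤ 1 ∧ |mu ω| ≤ 1 ∧ (|lam ω| = 1 ∨ |mu ω| = 1) ∧
    |lam ω * B.om0 ω + mu ω * B.om1 ω - nu ω| ≤ 1 / 2 ^ h

/-- The cumulative label of a chain of boxes. -/
noncomputable def clab (B : ℕ → Bx F) (k : ℕ) (ω : F.Ω) (i : ℕ) : ℝ × (ℤ × ℤ) :=
  if i ≤ k then (B i).lab ω else (0, (0, 0))

/-- The exact point with the labels of the boxes up to level `k`. -/
noncomputable def ptk (B : ℕ → Bx F) (k : ℕ) (ω : F.Ω) :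
    ((Fin 2 → ℤ) × (ℕ × F.ζ)) × (ℕ → ℝ × (ℤ × ℤ)) := (pt F ω, clab B k ω)

/-- **A chain of boxes** of length `M`, with gaps `g`; `N k` is the logarithm of the number of
values of the labels up to level `k`, given the exact point. -/
structure Chn (F : Fam 2 J) (A : F.Ω → Prop) (M g : ℕ) (B : ℕ → Bx F) (N : ℕ → ℝ) : Prop where
  ok : ∀ k < M, (B k).Ok A
  ins : ∀ k, k + 1 < M → (B (k + 1)).Sub ((B k).sh g) A
  nn : ∀ k < M, 0 ≤ N k
  cnt : ∀ k < M, Cnt F A (pt F) (clab B k) (Real.exp (N k))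

/-- The score of level `k`. -/
noncomputable def sco (δ : ℝ) (B : ℕ → Bx F) (N : ℕ → ℝ) (k : ℕ) : ℝ :=
  (((B k).q : ℝ) + (B k).n) * Real.log 2 - N k / δ

end bx

/-! ### Statements -/

/-- **(GEO)** A strip in the zoom of a box: the part of the box in the strip is a box, with `g` more
digits; `sw`: the chart changes. Pure geometry of the plane. -/
def GeoStmt : Prop :=
  ∀ (a lam mu : ℝ) (q n g : ℕ), |a| ≤ 1 → q ≤ n → |lam| ≤ 1 → |mu| ≤ 1 →
    (|lam| = 1 ∨ |mu| = 1) →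
    ∃ (sw : Bool) (a' : ℝ) (q' n' : ℕ), |a'| ≤ 1 ∧ q' ≤ n' ∧ q + n + g ≤ q' + n' ∧
      n' ≤ n + (4 * g + 16) ∧
      (∀ x y : ℝ, |x| ≤ 1 / 2 ^ q → |y - a * x| ≤ 1 / 2 ^ n →
        |lam * (2 ^ q * x) + mu * (2 ^ n * (y - a * x))| ≤ 2 / 2 ^ (4 * g + 16) →
        |if sw then y else x| ≤ 512 / 2 ^ q' ∧
        |(if sw then x else y) - a' * (if sw then y else x)| ≤ 512 / 2 ^ n') ∧
      (∀ x y : ℝ, |if sw then y else x| ≤ 1 / 2 ^ q' →
        |(if sw then x else y) - a' * (if sw then y else x)| ≤ 1 / 2 ^ n' →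
        |x| ≤ 1 / 2 ^ q ∧ |y - a * x| ≤ 1 / 2 ^ n)

/-- **(MODX)** If the fans are near lines on `A`, then a part of `A` has a finer box inside, which
is known up to `C` values, given `P` (and `P` determines the box). From (GEO): `sw, q', n'` are
constant on a part of probability at least `1 / (2 (J + 1) ^ 2)`. -/
def ModxStmt : Prop :=
  ∀ (J : ℕ) (F : Fam 2 J) (A : F.Ω → Prop) (B : Bx F) (α : Type) (P : F.Ω → α) (g : ℕ),
    B.Ok A → DetA F A P B.lab → NearLine F B A P (4 * g + 16) → B.n + (4 * g + 16) ≤ J →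
    0 < Pe F.p A →
    ∃ (A' : F.Ω → Prop) (B' : Bx F), (∀ ω, A' ω → A ω) ∧
      Pe F.p A / (2 * ((J : ℝ) + 1) ^ 2) ≤ Pe F.p A' ∧ B'.Ok A' ∧
      B.q + B.n + g ≤ B'.q + B'.n ∧ B'.Sub B A' ∧ Cnt F A' P B'.lab (2 ^ 21)

/-- **(MODA)** If `x` digits of the direction after the box are known up to `exp L` values, then
there is a finer box inside. The chart changes if `B.n < B.q + x`. -/
def ModaStmt : Prop :=
  ∀ (J : ℕ) (F : Fam 2 J) (A : F.Ω → Prop) (B : Bx F) (α : Type) (P : F.Ω → α) (x : ℕ) (L : ℝ),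
    B.Ok A → DetA F A P B.lab → B.q + x ≤ J →
    Cnt F A P (fun ω => ⌊(2 : ℝ) ^ (B.q + x) * F.d ω B.i0⌋) (Real.exp L) →
    ∃ B' : Bx F, B'.Ok A ∧ B.q + B.n + x ≤ B'.q + B'.n + 1 ∧ B'.Sub B A ∧
      Cnt F A P B'.lab (2 ^ 21 * Real.exp L)

end Pool.PC
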