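import Pool.Agent.H54.PC.Act

/-!
# Plan C: the boxes of a class

The final statement of the row BOX: in the subclass, all families have a chain of boxes at the class
numbers, which is exact and active on all events of cost `ψ J`.
-/

set_option autoImplicit false

namespace Pool.PC

open Finset Real
open Pool.Agent.H49.Ent Pool.Agent.H32.Dense Pool.STK Pool.KA Pool.K2S Pool.PB Pool.KSAT

/-- The events of cost `ψ J` inside the event `A`. -/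
def Evt {m J : ℕ} (F : Fam m J) (A : F.Ω → Prop) (ψ : ℝ) (E : F.Ω → Prop) : Prop :=
  Sub E A ∧ Real.exp (-(ψ * J)) * Pe F.p A ≤ Pe F.p E

theorem Evt.mono {m J : ℕ} {F : Fam m J} {A : F.Ω → Prop} {ψ ψ' : ℝ} {E : F.Ω → Prop}
    (h : Evt F A ψ E) (hψ : ψ ≤ ψ') : Evt F A ψ' E := by
  refine ⟨h.1, le_trans (mul_le_mul_of_nonneg_right (Real.exp_le_exp.2 ?_)
    (Pe_nonneg F.isLaw A)) h.2⟩
  have : ψ * (J : ℝ) ≤ ψ' * J := mul_le_mul_of_nonneg_right hψ (Nat.cast_nonneg J)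
  linarith

theorem Evt.refl {m J : ℕ} {F : Fam m J} {A : F.Ω → Prop} {ψ : ℝ} (hψ : 0 ≤ ψ) :
    Evt F A ψ A := by
  refine ⟨fun _ h => h, ?_⟩
  have : Real.exp (-(ψ * J)) ≤ 1 := by
    rw [Real.exp_le_one_iff]
    have : 0 ≤ ψ * J := by positivity
    linarith
  calc _ ≤ 1 * Pe F.p A := mul_le_mul_of_nonneg_right this (Pe_nonneg F.isLaw A)
    _ = _ := one_mul _

/-- **The boxes of one family**: at the class numbers `s` up to `h`, for the coordinates `i ≤ I`,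
exact and active, on all events of cost `ψ J`. -/
structure Box {J : ℕ} (δ γ : ℝ) (M : ℕ) (s : ℕ → ℝ) (I : ℕ) (h ψ : ℝ) (F : Fam 2 J)
    (A : F.Ω → Prop) (B : ℕ → Bx F) (N : ℕ → ℝ) : Prop where
  /-- the chain -/
  chn : Chn F A M (gp γ J) B N
  /-- the coordinates are attained -/
  att : ∀ i ≤ I, (knd M i).at δ (gp γ J) F A B N (s i - h)
  /-- the coordinates are not exceeded on large events -/
  bar : ∀ i ≤ I, ∀ E, Evt F A ψ E → ¬ (knd M i).at δ (gp γ J) F E B N (s i + h)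
  /-- the fans are not near lines on large events -/
  exa : ∀ k < M, ∀ E, Evt F A ψ E → (B k).n + ⌊h * J⌋₊ ≤ J →
    ¬ NearLine F (B k) E (ptk B k) ⌊h * J⌋₊
  /-- the direction is active on large events -/
  act : ∀ k < M, ∀ E, Evt F A ψ E → ∀ (x : ℕ) (L : ℝ), (B k).q + x ≤ J → 0 ≤ L →
    Cnt F E (ptk B k) (fun ω => ⌊(2 : ℝ) ^ ((B k).q + x) * F.d ω (B k).i0⌋) (Real.exp L) →
    δ * x * Real.log 2 - h * J ≤ L
  /-- the price of the labels -/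
  pri : ∀ k < M, N k ≤ (2 * δ + 2 * M * γ + h) * J

/-- **BOX**, for given class numbers. -/
theorem box_of {δ γ : ℝ} (hδ : 0 < δ) (hγ : 0 < γ) {M : ℕ} {S : PCl 2} {s : ℕ → ℝ}
    (hpos : ∀ (τ : ℝ) (J : ℕ) (F : Fam 2 J) (A : F.Ω → Prop), S.St τ J F A → 0 < Pe F.p A)
    (h4 : ∀ k < M, 0 ≤ s k) (h3 : ∀ i, Bar S (bdec δ γ M) i s) :
    ∀ (I : ℕ) (h : ℝ), 0 < h → ∃ ψ > 0, ∃ J₁ : ℕ, ∀ J ≥ J₁, ∀ (F : Fam 2 J)
      (A : F.Ω → Prop), (S.sl ((bdec δ γ M).sld s)).St ψ J F A →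
        ∃ B N, Box δ γ M s I h ψ F A B N := by
  intro I h hh
  have hbar : ∀ i, ∃ ψ > 0, ∃ J₁ : ℕ, ∀ J ≥ J₁,
      ∀ (F : Fam 2 J) (A : F.Ω → Prop), S.St ψ J F A → ∀ (B : ℕ → Bx F) (N : ℕ → ℝ),
      Dat δ γ M s ψ F A B N → ∀ E : F.Ω → Prop, Sub E A →
      Real.exp (-(ψ * J)) * Pe F.p A ≤ Pe F.p E →
        ¬ (knd M i).at δ (gp γ J) F E B N (s i + h) := fun i => bar_at (h3 i) h hh
  have hexa : ∀ k, ∃ ψ > 0, ∃ J₁ : ℕ, k < M → ∀ J ≥ J₁,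
    ∀ (F : Fam 2 J) (A : F.Ω → Prop), S.St ψ J F A → ∀ (B : ℕ → Bx F) (N : ℕ → ℝ),
      Chn F A M (gp γ J) B N → Scs δ γ s ψ k B N →
      ∀ E : F.Ω → Prop, Sub E A → Real.exp (-(ψ * J)) * Pe F.p A ≤ Pe F.p E →
      (B k).n + ⌊h * J⌋₊ ≤ J → ¬ NearLine F (B k) E (ptk B k) ⌊h * J⌋₊ := by
    intro k
    by_cases hk : k < M
    · obtain ⟨ψ, hψ, J₁, k1⟩ := exa hk (h3 k) hpos h hh
      exact ⟨ψ, hψ, J₁, fun _ => k1⟩
    · exact ⟨1, one_pos, 0, fun h => absurd h hk⟩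
  have hact : ∀ k, ∃ ψ > 0, ∃ J₁ : ℕ, k < M → ∀ J ≥ J₁,
    ∀ (F : Fam 2 J) (A : F.Ω → Prop), S.St ψ J F A → ∀ (B : ℕ → Bx F) (N : ℕ → ℝ),
      Chn F A M (gp γ J) B N → Scs δ γ s ψ k B N →
      ∀ E : F.Ω → Prop, Sub E A → Real.exp (-(ψ * J)) * Pe F.p A ≤ Pe F.p E →
      ∀ (x : ℕ) (L : ℝ), (B k).q + x ≤ J → 0 ≤ L →
        Cnt F E (ptk B k) (fun ω => ⌊(2 : ℝ) ^ ((B k).q + x) * F.d ω (B k).i0⌋)
          (Real.exp L) → δ * x * Real.log 2 - h * J ≤ L := by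
    intro k
    by_cases hk : k < M
    · obtain ⟨ψ, hψ, J₁, k1⟩ := act hδ hk (h3 k) h hh
      exact ⟨ψ, hψ, J₁, fun _ => k1⟩
    · exact ⟨1, one_pos, 0, fun h => absurd h hk⟩
  choose ψ₁ hψ₁ J₁ hb using hbar
  choose ψ₂ hψ₂ J₂ he using hexa
  choose ψ₃ hψ₃ J₃ ha using hact
  -- a common number
  have hmin : ∀ (f : ℕ → ℝ), (∀ i, 0 < f i) → ∀ n : ℕ, ∃ c > 0, ∀ i < n, c ≤ f i := by
    intro f hf n
    induction n with
    | zero => exact ⟨1, one_pos, fun i hi => absurd hi (Nat.not_lt_zero i)⟩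
    | succ n ih =>
      obtain ⟨c, hc, h5⟩ := ih
      refine ⟨min c (f n), lt_min hc (hf n), fun i hi => ?_⟩
      rcases Nat.lt_succ_iff_lt_or_eq.1 hi with h6 | h6
      · exact (min_le_left _ _).trans (h5 i h6)
      · rw [h6]
        exact min_le_right _ _
  obtain ⟨c₁, hc₁, k1⟩ := hmin ψ₁ hψ₁ (I + 1)
  obtain ⟨c₂, hc₂, k2⟩ := hmin ψ₂ hψ₂ M
  obtain ⟨c₃, hc₃, k3⟩ := hmin ψ₃ hψ₃ M
  obtain ⟨ψ, hψ, e1, e2, e3, e4, e5, e6, e7⟩ : ∃ ψ > 0, ψ ≤ c₁ ∧ ψ ≤ c₂ ∧ ψ ≤ c₃ ∧ ψ ≤ h ∧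
      ψ ≤ 1 / 2 ∧ ψ ≤ 1 / ((I : ℝ) + M + 2) ∧ δ * ψ ≤ h := by
    refine ⟨min (min (min c₁ c₂) (min c₃ h)) (min (min (1 / 2) (1 / ((I : ℝ) + M + 2))) (h / δ)),
      ?_, ?_⟩
    · refine lt_min (lt_min (lt_min hc₁ hc₂) (lt_min hc₃ hh)) (lt_min (lt_min (by norm_num) ?_) ?_)
      · positivity
      · positivity
    · refine ⟨?_, ?_, ?_, ?_, ?_, ?_, ?_⟩
      · exact (min_le_left _ _).trans ((min_le_left _ _).trans (min_le_left _ _))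
      · exact (min_le_left _ _).trans ((min_le_left _ _).trans (min_le_right _ _))
      · exact (min_le_left _ _).trans ((min_le_right _ _).trans (min_le_left _ _))
      · exact (min_le_left _ _).trans ((min_le_right _ _).trans (min_le_right _ _))
      · exact (min_le_right _ _).trans ((min_le_left _ _).trans (min_le_left _ _))
      · exact (min_le_right _ _).trans ((min_le_left _ _).trans (min_le_right _ _))
      · have h5 := mul_le_mul_of_nonneg_left ((min_le_right (min (min c₁ c₂) (min c₃ h))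
          (min (min (1 / 2) (1 / ((I : ℝ) + M + 2))) (h / δ))).trans (min_le_right _ _)) hδ.le
        rwa [mul_div_cancel₀ _ hδ.ne'] at h5
  obtain ⟨J₀, hJ₀⟩ : ∃ J₀ : ℕ, 2 ≤ J₀ ∧ (∀ i < I + 1, J₁ i ≤ J₀) ∧ (∀ i < M, J₂ i ≤ J₀) ∧
      ∀ i < M, J₃ i ≤ J₀ := by
    refine ⟨2 + ∑ i ∈ range (I + 1), J₁ i + ∑ i ∈ range M, J₂ i + ∑ i ∈ range M, J₃ i,
      by omega, fun i hi => ?_, fun i hi => ?_, fun i hi => ?_⟩
    · have := Finset.single_le_sum (f := J₁) (fun _ _ => Nat.zero_le _) (Finset.mem_range.2 hi)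
      omega
    · have := Finset.single_le_sum (f := J₂) (fun _ _ => Nat.zero_le _) (Finset.mem_range.2 hi)
      omega
    · have := Finset.single_le_sum (f := J₃) (fun _ _ => Nat.zero_le _) (Finset.mem_range.2 hi)
      omega
  refine ⟨ψ, hψ, J₀, fun J hJ F A hA => ?_⟩
  obtain ⟨B, N, hD⟩ := dat_of h4 (show ψ < 1 by linarith) (hJ₀.1.trans hJ) hA
  have hidx : ∀ i : ℕ, i ≤ I + M → ((i : ℝ) + 1) * ψ ≤ 1 := by
    intro i hi
    have hi' : (i : ℝ) ≤ I + M := by exact_mod_cast hi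
    have h5 : ((i : ℝ) + 1) * ψ ≤ ((I : ℝ) + M + 2) * (1 / ((I : ℝ) + M + 2)) :=
      mul_le_mul (by linarith) e6 hψ.le (by positivity)
    refine h5.trans (le_of_eq ?_)
    field_simp
  have hsc : ∀ k < M, ∀ j ≤ k, (s j - ψ) * J ≤ nsc δ (gp γ J) B N j := by
    intro k hk j hj
    have := hD.2 j (hidx j (by omega))
    rwa [knd_lt (lt_of_le_of_lt hj hk)] at this
  refine ⟨B, N, hD.1, fun i hi => (hD.2 i (hidx i (by omega))).anti (by linarith),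
    fun i hi E hE => ?_, fun k hk E hE => ?_, fun k hk E hE => ?_, fun k hk => ?_⟩
  · have e8 := k1 i (by omega)
    exact hb i J ((hJ₀.2.1 i (by omega)).trans hJ) F A (S.mono (e1.trans e8) hA.1) B N
      (hD.mono (e1.trans e8)) E hE.1 (hE.mono (e1.trans e8)).2
  · have e8 := k2 k hk
    refine he k hk J ((hJ₀.2.2.1 k hk).trans hJ) F A (S.mono (e2.trans e8) hA.1) B N hD.1
      (fun j hj => ?_) E hE.1 (hE.mono (e2.trans e8)).2
    refine le_trans (mul_le_mul_of_nonneg_right ?_ (Nat.cast_nonneg J)) (hsc k hk j hj)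
    linarith
  · have e8 := k3 k hk
    refine ha k hk J ((hJ₀.2.2.2 k hk).trans hJ) F A (S.mono (e3.trans e8) hA.1) B N hD.1
      (fun j hj => ?_) E hE.1 (hE.mono (e3.trans e8)).2
    refine le_trans (mul_le_mul_of_nonneg_right ?_ (Nat.cast_nonneg J)) (hsc k hk j hj)
    linarith
  · refine (price hδ hγ.le hk (h4 k hk) hD.1 (hsc k hk k le_rfl)).trans ?_
    exact mul_le_mul_of_nonneg_right (by linarith) (Nat.cast_nonneg J)

/-- **BOX.** -/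
theorem box_thm {δ γ : ℝ} (hδ : 0 < δ) (hγ : 0 < γ) (M : ℕ) {S : PCl 2} (hS : S.Ne)
    (hpos : ∀ (τ : ℝ) (J : ℕ) (F : Fam 2 J) (A : F.Ω → Prop), S.St τ J F A → 0 < Pe F.p A) :
    ∃ s : ℕ → ℝ, (∀ i, (knd M i).lo ≤ s i ∧ s i ≤ (knd M i).up δ γ) ∧ (∀ k < M, 0 ≤ s k) ∧
      (S.sl ((bdec δ γ M).sld s)).Ne ∧ (∀ i, Bar S (bdec δ γ M) i s) ∧
      ∀ (I : ℕ) (h : ℝ), 0 < h → ∃ ψ > 0, ∃ J₁ : ℕ, ∀ J ≥ J₁, ∀ (F : Fam 2 J)
        (A : F.Ω → Prop), (S.sl ((bdec δ γ M).sld s)).St ψ J F A →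
          ∃ B N, Box δ γ M s I h ψ F A B N := by
  obtain ⟨s, h1, h2, h3⟩ := box_lex hδ hγ M hS hpos
  have h4 := sc_nonneg h2 fun i _ => h3 i
  exact ⟨s, h1, h4, h2, h3, box_of hδ hγ hpos h4 h3⟩

/-! ### The class numbers of the boxes -/

section

variable {J : ℕ} {δ γ : ℝ} {M : ℕ} {s : ℕ → ℝ} {I : ℕ} {h ψ : ℝ} {F : Fam 2 J}
  {A : F.Ω → Prop} {B : ℕ → Bx F} {N : ℕ → ℝ} {k : ℕ}

/-- The precision `q` is a class number. -/
theorem Box.q_near (hB : Box δ γ M s I h ψ F A B N) (hψ : 0 ≤ ψ) (hk : k < M)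
    (hI : ix M 0 k 0 ≤ I) :
    (cq M s k - h) * J ≤ (B k).q ∧ ((B k).q : ℝ) < (cq M s k + h) * J := by
  have h1 := hB.att _ hI
  have h2 := hB.bar _ hI A (Evt.refl hψ)
  rw [knd_ix 0 hk] at h1 h2
  exact ⟨h1, not_le.1 h2⟩

/-- The precision `n` is a class number. -/
theorem Box.n_near (hB : Box δ γ M s I h ψ F A B N) (hψ : 0 ≤ ψ) (hk : k < M)
    (hI : ix M 1 k 0 ≤ I) :
    (cn M s k - h) * J ≤ (B k).n ∧ ((B k).n : ℝ) < (cn M s k + h) * J := by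
  have h1 := hB.att _ hI
  have h2 := hB.bar _ hI A (Evt.refl hψ)
  rw [knd_ix 1 hk] at h1 h2
  exact ⟨h1, not_le.1 h2⟩

/-- The slope is closed to `(rot - h) J` digits. -/
theorem Box.clo (hB : Box δ γ M s I h ψ F A B N) (hk : k < M) {w : ℚ}
    (hI : ix M 2 k w ≤ I) : ∃ r : ℕ, (crot M s k w - h) * J ≤ r ∧ r + (B k).q ≤ (B k).n ∧
      Clo F A (B k).a ⌊(w : ℝ) * J⌋₊ r := by
  have h1 := hB.att _ hI
  rw [knd_ix 2 hk] at h1
  exact h1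

/-- The slope is not closed to `(rot + h) J` digits, on any large event. -/
theorem Box.not_clo (hB : Box δ γ M s I h ψ F A B N) (hk : k < M) {w : ℚ}
    (hI : ix M 2 k w ≤ I) {E : F.Ω → Prop} (hE : Evt F A ψ E) {r : ℕ}
    (hr : (crot M s k w + h) * J ≤ r) (hn : r + (B k).q ≤ (B k).n) :
    ¬ Clo F E (B k).a ⌊(w : ℝ) * J⌋₊ r := by
  intro hcon
  have h1 := hB.bar _ hI E hE
  rw [knd_ix 2 hk] at h1
  exact h1 ⟨r, hr, hn, hcon⟩

/-- The number of values of the digits of the direction. -/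
theorem Box.cnt (hB : Box δ γ M s I h ψ F A B N) (hk : k < M) {q : ℚ}
    (hI : ix M 3 k q ≤ I) : Cnt F A (ptk B k)
      (fun ω => ⌊(2 : ℝ) ^ ⌊(q : ℝ) * J⌋₊ * F.d ω (B k).i0⌋)
      (Real.exp ((cact M s k q + h) * J)) := by
  have h1 := hB.att _ hI
  rw [knd_ix 3 hk] at h1
  have e : -((s (ix M 3 k q) - h) * (J : ℝ)) = (cact M s k q + h) * J := by
    unfold cact; ring
  have h2 : Cnt F A (ptk B k) (fun ω => ⌊(2 : ℝ) ^ ⌊(q : ℝ) * J⌋₊ * F.d ω (B k).i0⌋)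
      (Real.exp (-((s (ix M 3 k q) - h) * J))) := h1
  rwa [e] at h2

/-- There are not fewer values, on any large event. -/
theorem Box.not_cnt (hB : Box δ γ M s I h ψ F A B N) (hk : k < M) {q : ℚ}
    (hI : ix M 3 k q ≤ I) {E : F.Ω → Prop} (hE : Evt F A ψ E) : ¬ Cnt F E (ptk B k)
      (fun ω => ⌊(2 : ℝ) ^ ⌊(q : ℝ) * J⌋₊ * F.d ω (B k).i0⌋)
      (Real.exp ((cact M s k q - h) * J)) := by
  intro hcon
  have h1 := hB.bar _ hI E hE
  rw [knd_ix 3 hk] at h1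
  have e : -((s (ix M 3 k q) + h) * (J : ℝ)) = (cact M s k q - h) * J := by
    unfold cact; ring
  refine h1 ?_
  show Cnt F E (ptk B k) (fun ω => ⌊(2 : ℝ) ^ ⌊(q : ℝ) * J⌋₊ * F.d ω (B k).i0⌋)
      (Real.exp (-((s (ix M 3 k q) + h) * J)))
  rw [e]
  exact hcon

end

end Pool.PC
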