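import Pool.Agent.H54.PC.BoxDefs

/-!
# Plan C: the number of values of a function, given another one
-/

set_option autoImplicit false

namespace Pool.PC

open Finset Real
open Pool.Agent.H49.Ent Pool.Agent.H32.Dense Pool.STK Pool.KA Pool.K2S

variable {m J : ℕ}

section cnt

variable {F : Fam m J} {A A' : F.Ω → Prop} {α α' β γ : Type} {P : F.Ω → α} {P' : F.Ω → α'}
  {o : F.Ω → β} {o' : F.Ω → γ} {N N' : ℝ}

theorem On.mono (hA : ∀ ω, A' ω → A ω) {ω : F.Ω} (h : On F A' ω) : On F A ω := ⟨h.1, hA ω h.2⟩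

theorem DetA.sub (h : DetA F A P o) (hA : ∀ ω, A' ω → A ω) : DetA F A' P o :=
  fun ω ω' h1 h2 e => h ω ω' (h1.mono hA) (h2.mono hA) e

theorem Cnt.mono (h : Cnt F A P o N) (hN : N ≤ N') : Cnt F A P o N' :=
  fun ω hω => (h ω hω).trans hN

/-- Introduction. -/
theorem Cnt.intro (h : ∀ ω₀, On F A ω₀ → ∃ I : Finset β,
    (∀ ω, On F A ω → P ω = P ω₀ → o ω ∈ I) ∧ (I.card : ℝ) ≤ N) : Cnt F A P o N := by
  classical
  intro ω₀ h0
  obtain ⟨I, h1, h2⟩ := h ω₀ h0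
  refine le_trans (Nat.cast_le.2 (card_le_card ?_)) h2
  intro b hb
  rw [mem_image] at hb
  obtain ⟨ω, hω, rfl⟩ := hb
  rw [mem_filter] at hω
  exact h1 ω hω.2.1 hω.2.2

/-- Elimination. -/
theorem Cnt.out (h : Cnt F A P o N) {ω₀ : F.Ω} (h0 : On F A ω₀) : ∃ I : Finset β,
    (∀ ω, On F A ω → P ω = P ω₀ → o ω ∈ I) ∧ (I.card : ℝ) ≤ N ∧
    ∀ b ∈ I, ∃ ω, On F A ω ∧ P ω = P ω₀ ∧ o ω = b := by
  classical
  refine ⟨_, fun ω h1 h2 => mem_image_of_mem o (mem_filter.2 ⟨mem_univ ω, h1, h2⟩), h ω₀ h0,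
    fun b hb => ?_⟩
  rw [mem_image] at hb
  obtain ⟨ω, hω, rfl⟩ := hb
  rw [mem_filter] at hω
  exact ⟨ω, hω.2.1, hω.2.2, rfl⟩

theorem Cnt.sub (h : Cnt F A P o N) (hA : ∀ ω, A' ω → A ω) : Cnt F A' P o N := by
  refine Cnt.intro fun ω₀ h0 => ?_
  obtain ⟨I, h1, h2, -⟩ := h.out (h0.mono hA)
  exact ⟨I, fun ω h3 h4 => h1 ω (h3.mono hA) h4, h2⟩

theorem Cnt.one_le (h : Cnt F A P o N) {ω : F.Ω} (hω : On F A ω) : 1 ≤ N := by
  obtain ⟨I, h1, h2, -⟩ := h.out hω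
  refine le_trans ?_ h2
  have h3 : 1 ≤ I.card := card_pos.2 ⟨o ω, h1 ω hω rfl⟩
  exact_mod_cast h3

/-- The count of a function of `(P, o)`. -/
theorem Cnt.det (h : Cnt F A P o N) (hd : DetA F A (fun ω => (P ω, o ω)) o') :
    Cnt F A P o' N := by
  classical
  refine Cnt.intro fun ω₀ h0 => ?_
  obtain ⟨I, h1, h2, h3⟩ := h.out h0
  have hg : ∀ b, ∃ ω, b ∈ I → On F A ω ∧ P ω = P ω₀ ∧ o ω = b := by
    intro b
    by_cases hb : b ∈ I
    · obtain ⟨ω, hω⟩ := h3 b hb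
      exact ⟨ω, fun _ => hω⟩
    · exact ⟨ω₀, fun h => absurd h hb⟩
  choose g hg using hg
  refine ⟨I.image fun b => o' (g b), fun ω h4 h5 => ?_, le_trans (Nat.cast_le.2 card_image_le) h2⟩
  rw [mem_image]
  have h6 := h1 ω h4 h5
  obtain ⟨h7, h8, h9⟩ := hg (o ω) h6
  refine ⟨o ω, h6, hd _ _ h7 h4 ?_⟩
  show (P (g (o ω)), o (g (o ω))) = (P ω, o ω)
  rw [h8, h9, h5]

theorem Cnt.of_det (h : DetA F A P o) : Cnt F A P o 1 := by
  refine Cnt.intro fun ω₀ h0 => ⟨{o ω₀}, fun ω h1 h2 => ?_, ?_⟩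
  · rw [mem_singleton]
    exact h _ _ h1 h0 h2
  · rw [card_singleton]
    norm_num

/-- The count of a pair. -/
theorem Cnt.pair (h : Cnt F A P o N) (h' : Cnt F A (fun ω => (P ω, o ω)) o' N') :
    Cnt F A P (fun ω => (o ω, o' ω)) (N * N') := by
  classical
  refine Cnt.intro fun ω₀ h0 => ?_
  obtain ⟨I, h1, h2, h3⟩ := h.out h0
  have hN' : 1 ≤ N' := h'.one_le h0
  have hg : ∀ b, ∃ S : Finset γ, (b ∈ I → (∀ ω, On F A ω → P ω = P ω₀ → o ω = b → o' ω ∈ S)) ∧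
      (S.card : ℝ) ≤ N' := by
    intro b
    by_cases hb : b ∈ I
    · obtain ⟨ω₁, a1, a2, a3⟩ := h3 b hb
      obtain ⟨S, b1, b2, -⟩ := h'.out a1
      refine ⟨S, fun _ ω c1 c2 c3 => b1 ω c1 ?_, b2⟩
      show (P ω, o ω) = (P ω₁, o ω₁)
      rw [c2, c3, a2, a3]
    · refine ⟨∅, fun h => absurd h hb, ?_⟩
      rw [card_empty]
      push_cast
      linarith
  choose S hS1 hS2 using hg
  refine ⟨I.biUnion fun b => (S b).image fun c => (b, c), fun ω h4 h5 => ?_, ?_⟩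
  · have h6 := h1 ω h4 h5
    rw [mem_biUnion]
    exact ⟨o ω, h6, mem_image_of_mem _ (hS1 (o ω) h6 ω h4 h5 rfl)⟩
  · have k1 : ((I.biUnion fun b => (S b).image fun c => (b, c)).card : ℝ) ≤
        ∑ b ∈ I, ((S b).card : ℝ) := by
      refine (Nat.cast_le.2 card_biUnion_le).trans ?_
      push_cast
      exact Finset.sum_le_sum fun b _ => Nat.cast_le.2 card_image_le
    refine k1.trans ((Finset.sum_le_sum fun b _ => hS2 b).trans ?_)
    rw [Finset.sum_const, nsmul_eq_mul]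
    exact mul_le_mul_of_nonneg_right h2 (by linarith)

/-- Two steps. -/
theorem Cnt.comp (h : Cnt F A P o N) (h' : Cnt F A (fun ω => (P ω, o ω)) o' N') :
    Cnt F A P o' (N * N') :=
  (h.pair h').det fun _ _ _ _ e => (Prod.ext_iff.1 (Prod.ext_iff.1 e).2).2

/-- Change of the condition: `P'` is finer. -/
theorem Cnt.cond (h : Cnt F A P o N) (hP : DetA F A P' P) : Cnt F A P' o N := by
  refine Cnt.intro fun ω₀ h0 => ?_
  obtain ⟨I, h1, h2, -⟩ := h.out h0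
  exact ⟨I, fun ω h3 h4 => h1 ω h3 (hP _ _ h3 h0 h4), h2⟩

/-- Integers which are near each other. -/
theorem Cnt.int {f : F.Ω → ℤ} {c : ℕ} (h : ∀ ω ω', On F A ω → On F A ω' → P ω = P ω' →
    f ω - f ω' ≤ c) : Cnt F A P f (2 * c + 1) := by
  refine Cnt.intro fun ω₀ h0 => ⟨Finset.Icc (f ω₀ - c) (f ω₀ + c), fun ω h1 h2 => ?_, ?_⟩
  · have h3 := h ω ω₀ h1 h0 h2
    have h4 := h ω₀ ω h0 h1 h2.symm
    rw [Finset.mem_Icc]
    constructor <;> linarith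
  · rw [Int.card_Icc]
    have e : f ω₀ + c + 1 - (f ω₀ - c) = ((2 * c + 1 : ℕ) : ℤ) := by push_cast; ring
    rw [e, Int.toNat_natCast]
    push_cast
    exact le_rfl

/-- More digits of a real number: `2 ^ g` cells in a cell. -/
theorem Cnt.digits {f : F.Ω → ℝ} {k k' : ℕ} (hk : k ≤ k')
    (h : DetA F A P fun ω => ⌊(2 : ℝ) ^ k * f ω⌋) :
    Cnt F A P (fun ω => ⌊(2 : ℝ) ^ k' * f ω⌋) (2 ^ (k' - k)) := by
  refine Cnt.intro fun ω₀ h0 => ⟨Finset.Ico (⌊(2 : ℝ) ^ k * f ω₀⌋ * 2 ^ (k' - k))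
    ((⌊(2 : ℝ) ^ k * f ω₀⌋ + 1) * 2 ^ (k' - k)), fun ω h1 h2 => ?_, ?_⟩
  · have h2 : ⌊(2 : ℝ) ^ k * f ω⌋ = ⌊(2 : ℝ) ^ k * f ω₀⌋ := h ω ω₀ h1 h0 h2
    have h3 := Int.floor_le ((2 : ℝ) ^ k * f ω)
    have h4 := Int.lt_floor_add_one ((2 : ℝ) ^ k * f ω)
    rw [h2] at h3 h4
    have e : (2 : ℝ) ^ k' * f ω = 2 ^ (k' - k) * (2 ^ k * f ω) := by
      rw [← mul_assoc, ← pow_add, Nat.sub_add_cancel hk]
    have hp : (0 : ℝ) < 2 ^ (k' - k) := by positivity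
    rw [Finset.mem_Ico]
    constructor
    · rw [Int.le_floor, e]
      push_cast
      rw [mul_comm]
      exact mul_le_mul_of_nonneg_left h3 hp.le
    · rw [Int.floor_lt, e]
      push_cast
      rw [mul_comm ((⌊(2 : ℝ) ^ k * f ω₀⌋ : ℝ) + 1)]
      exact mul_lt_mul_of_pos_left h4 hp
  · rw [Int.card_Ico]
    have e : (⌊(2 : ℝ) ^ k * f ω₀⌋ + 1) * 2 ^ (k' - k) - ⌊(2 : ℝ) ^ k * f ω₀⌋ * 2 ^ (k' - k) =
        ((2 ^ (k' - k) : ℕ) : ℤ) := by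
      push_cast; ring
    rw [e, Int.toNat_natCast]
    push_cast
    exact le_rfl

/-- The count bounds the conditional entropy, for every law on `A`. -/
theorem Cnt.entropy (h : Cnt F A P o N) {p : F.Ω → ℝ} (hp : IsLaw p)
    (hA : ∀ ω, 0 < p ω → On F A ω) : CH p o P ≤ Real.log N := by
  classical
  have h0 := hp.nonneg
  have h1 : ∑ ω, p ω = 1 := hp.sum_one
  have hI : ∀ v : α, ∃ I : Finset β, (∀ ω, On F A ω → P ω = v → o ω ∈ I) ∧
      ((∃ ω, On F A ω ∧ P ω = v) → (I.card : ℝ) ≤ N) := by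
    intro v
    by_cases hv : ∃ ω, On F A ω ∧ P ω = v
    · obtain ⟨ω₀, h2, rfl⟩ := hv
      obtain ⟨I, h3, h4, -⟩ := h.out h2
      exact ⟨I, h3, fun _ => h4⟩
    · exact ⟨∅, fun ω h2 h3 => absurd ⟨ω, h2, h3⟩ hv, fun h2 => absurd h2 hv⟩
  choose I hI1 hI2 using hI
  have k := CH_le_card h0 h1 o P I (fun ω hω => hI1 _ ω (hA ω hω) rfl)
  refine k.trans ?_
  have k2 : Ex p (fun ω => Real.log ((I (P ω)).card)) ≤ Ex p (fun _ => Real.log N) := by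
    refine Ex_mono h0 fun ω hω => ?_
    have h2 := hA ω hω
    refine Real.log_le_log ?_ (hI2 _ ⟨ω, h2, rfl⟩)
    have : 0 < (I (P ω)).card := card_pos.2 ⟨o ω, hI1 _ ω h2 rfl⟩
    exact_mod_cast this
  refine k2.trans (le_of_eq ?_)
  unfold Ex
  rw [← Finset.sum_mul, h1, one_mul]

end cnt

end Pool.PC
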