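import Pool.Agent.H54.PC.Cnt

/-!
# Plan C: chains of boxes: shrinking, the trivial chain, replacing a level by a finer box
-/

set_option autoImplicit false

namespace Pool.PC

open Finset Real
open Pool.Agent.H49.Ent Pool.Agent.H32.Dense Pool.STK Pool.KA Pool.K2S

variable {J : ℕ} {F : Fam 2 J} {A A' : F.Ω → Prop}

/-! ### Boxes -/

theorem Bx.Ok.sub {B : Bx F} (h : B.Ok A) (hA : ∀ ω, A' ω → A ω) : B.Ok A' :=
  ⟨h.le, h.leJ, fun ω hω => h.sl ω (hω.mono hA)⟩

theorem Bx.Sub.sub {B B' : Bx F} (h : B'.Sub B A) (hA : ∀ ω, A' ω → A ω) : B'.Sub B A' :=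
  fun ω hω => h ω (hω.mono hA)

theorem Bx.Sub.refl (B : Bx F) : B.Sub B A := fun _ _ _ h => h

theorem Bx.Sub.trans {B B' B'' : Bx F} (h : B''.Sub B' A) (h' : B'.Sub B A) : B''.Sub B A :=
  fun ω hω v hv => h' ω hω v (h ω hω v hv)

theorem Bx.Ok.sh {B : Bx F} (h : B.Ok A) (g : ℕ) : (B.sh g).Ok A :=
  ⟨min_le_min_right _ (Nat.add_le_add_right h.le g), min_le_right _ _, h.sl⟩

theorem Bx.sh_q (B : Bx F) (g : ℕ) : (B.sh g).q = min (B.q + g) J := rfl

theorem Bx.sh_n (B : Bx F) (g : ℕ) : (B.sh g).n = min (B.n + g) J := rfl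

theorem Bx.Ok.le_sh {B : Bx F} (h : B.Ok A) (g : ℕ) : B.q ≤ (B.sh g).q ∧ B.n ≤ (B.sh g).n :=
  ⟨le_min (Nat.le_add_right _ _) (h.le.trans h.leJ), le_min (Nat.le_add_right _ _) h.leJ⟩

theorem Bx.sh_sub {B : Bx F} (h : B.Ok A) (g : ℕ) : (B.sh g).Sub B A := by
  intro ω _ v hv
  obtain ⟨h1, h2⟩ := h.le_sh g
  have k1 : (1 : ℝ) / 2 ^ (B.sh g).q ≤ 1 / 2 ^ B.q :=
    one_div_le_one_div_of_le (by positivity) (pow_le_pow_right₀ (by norm_num) h1)
  have k2 : (1 : ℝ) / 2 ^ (B.sh g).n ≤ 1 / 2 ^ B.n :=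
    one_div_le_one_div_of_le (by positivity) (pow_le_pow_right₀ (by norm_num) h2)
  exact ⟨le_trans hv.1 k1, le_trans hv.2 k2⟩

/-- The label of the shrunk box: at most `4 ^ g` values, given the label. -/
theorem Bx.sh_cnt {B : Bx F} (h : B.Ok A) (g : ℕ) {α : Type} {P : F.Ω → α}
    (hP : DetA F A P B.lab) : Cnt F A P (B.sh g).lab (4 ^ g) := by
  obtain ⟨h1, h2⟩ := h.le_sh g
  have ha : DetA F A P B.a := fun ω ω' h3 h4 e => congrArg Prod.fst (hP ω ω' h3 h4 e)
  have hq : DetA F A P fun ω => ⌊(2 : ℝ) ^ B.q * F.d ω B.i0⌋ := fun ω ω' h3 h4 e =>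
    congrArg (fun x : ℝ × (ℤ × ℤ) => x.2.1) (hP ω ω' h3 h4 e)
  have hn : DetA F A P fun ω => ⌊(2 : ℝ) ^ B.n * B.pr ω (F.d ω)⌋ := fun ω ω' h3 h4 e =>
    congrArg (fun x : ℝ × (ℤ × ℤ) => x.2.2) (hP ω ω' h3 h4 e)
  have k1 := Cnt.digits h1 hq
  have k2 := Cnt.digits (f := fun ω => B.pr ω (F.d ω)) h2 hn
  have k3 : Cnt F A (fun ω => (P ω, ⌊(2 : ℝ) ^ (B.sh g).q * F.d ω B.i0⌋))
      (fun ω => ⌊(2 : ℝ) ^ (B.sh g).n * B.pr ω (F.d ω)⌋) (2 ^ ((B.sh g).n - B.n)) :=
    k2.cond fun _ _ _ _ e => congrArg Prod.fst e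
  have k4 := k1.pair k3
  have k5 : Cnt F A P (B.sh g).lab
      (2 ^ ((B.sh g).q - B.q) * 2 ^ ((B.sh g).n - B.n)) := by
    refine k4.det fun ω ω' h3 h4 e => ?_
    have e1 := congrArg (fun x : α × (ℤ × ℤ) => x.1) e
    have e2 := congrArg (fun x : α × (ℤ × ℤ) => x.2) e
    exact Prod.ext (ha ω ω' h3 h4 e1) e2
  refine k5.mono ?_
  have e4 : (4 : ℝ) ^ g = 2 ^ g * 2 ^ g := by
    rw [← mul_pow]; norm_num
  rw [e4]
  refine mul_le_mul (pow_le_pow_right₀ (by norm_num) ?_) (pow_le_pow_right₀ (by norm_num) ?_)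
    (by positivity) (by positivity)
  · rw [Bx.sh_q]; omega
  · rw [Bx.sh_n]; omega

/-- Iterated shrinking. -/
noncomputable def Bx.its (B : Bx F) (g : ℕ) : ℕ → Bx F
  | 0 => B
  | j + 1 => (B.its g j).sh g

theorem Bx.Ok.its {B : Bx F} (h : B.Ok A) (g : ℕ) : ∀ j, (B.its g j).Ok A
  | 0 => h
  | j + 1 => (h.its g j).sh g

theorem Bx.its_mono {B : Bx F} (h : B.Ok A) (g : ℕ) (j : ℕ) :
    B.q ≤ (B.its g j).q ∧ B.n ≤ (B.its g j).n := by
  induction j with
  | zero => exact ⟨le_rfl, le_rfl⟩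
  | succ j ih =>
    obtain ⟨h1, h2⟩ := (h.its g j).le_sh g
    exact ⟨ih.1.trans h1, ih.2.trans h2⟩

/-! ### Chains -/

theorem Chn.sub {M g : ℕ} {B : ℕ → Bx F} {N : ℕ → ℝ} (h : Chn F A M g B N)
    (hA : ∀ ω, A' ω → A ω) : Chn F A' M g B N :=
  ⟨fun k hk => (h.ok k hk).sub hA, fun k hk => (h.ins k hk).sub hA, h.nn,
    fun k hk => (h.cnt k hk).sub hA⟩

/-- `clab` up to `k` determines the label of level `i ≤ k`. -/
theorem clab_det {B : ℕ → Bx F} {k i : ℕ} (hi : i ≤ k) {ω ω' : F.Ω}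
    (h : clab B k ω = clab B k ω') : (B i).lab ω = (B i).lab ω' := by
  have := congrFun h i
  unfold clab at this
  rwa [if_pos hi, if_pos hi] at this

theorem clab_ext {B : ℕ → Bx F} {k : ℕ} {ω ω' : F.Ω}
    (h : ∀ i ≤ k, (B i).lab ω = (B i).lab ω') : clab B k ω = clab B k ω' := by
  funext i
  unfold clab
  by_cases hi : i ≤ k
  · rw [if_pos hi, if_pos hi]
    exact h i hi
  · rw [if_neg hi, if_neg hi]

theorem clab_mono {B : ℕ → Bx F} {k k' : ℕ} (hk : k ≤ k') {ω ω' : F.Ω}
    (h : clab B k' ω = clab B k' ω') : clab B k ω = clab B k ω' :=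
  clab_ext fun _ hi => clab_det (hi.trans hk) h

/-- The labels of the levels `< k`. -/
theorem clab_congr {B B' : ℕ → Bx F} {k : ℕ} (h : ∀ i ≤ k, B' i = B i) (ω : F.Ω) :
    clab B' k ω = clab B k ω := by
  funext i
  unfold clab
  by_cases hi : i ≤ k
  · rw [if_pos hi, if_pos hi, h i hi]
  · rw [if_neg hi, if_neg hi]

theorem ptk_det_lab (B : ℕ → Bx F) {k i : ℕ} (hi : i ≤ k) : DetA F A (ptk B k) (B i).lab :=
  fun _ _ _ _ e => clab_det hi (congrArg Prod.snd e)

theorem ptk_det_pt (B : ℕ → Bx F) (k : ℕ) : DetA F A (ptk B k) (pt F) :=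
  fun _ _ _ _ e => congrArg Prod.fst e

theorem ptk_det_ptk (B : ℕ → Bx F) {k i : ℕ} (hi : i ≤ k) : DetA F A (ptk B k) (ptk B i) := by
  intro ω ω' _ _ e
  show (pt F ω, clab B i ω) = (pt F ω', clab B i ω')
  rw [show pt F ω = pt F ω' from congrArg Prod.fst e, clab_mono hi (congrArg Prod.snd e)]

/-- The new chain: level `k` is replaced by `B'`, the later ones by shrinks of `B'`. -/
noncomputable def rep (B : ℕ → Bx F) (k : ℕ) (B' : Bx F) (g : ℕ) (i : ℕ) : Bx F :=
  if i < k then B i else B'.its g (i - k)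

/-- The numbers of the new chain. -/
noncomputable def repN (N : ℕ → ℝ) (k : ℕ) (L : ℝ) (g : ℕ) (i : ℕ) : ℝ :=
  if i < k then N i else L + ((i - k : ℕ) : ℝ) * (2 * g * Real.log 2)

theorem rep_lt {B : ℕ → Bx F} {k : ℕ} {B' : Bx F} {g i : ℕ} (h : i < k) :
    rep B k B' g i = B i := if_pos h

theorem rep_ge {B : ℕ → Bx F} {k : ℕ} {B' : Bx F} {g : ℕ} (j : ℕ) :
    rep B k B' g (k + j) = B'.its g j := by
  unfold rep
  rw [if_neg (by omega), Nat.add_sub_cancel_left]

theorem repN_lt {N : ℕ → ℝ} {k : ℕ} {L : ℝ} {g i : ℕ} (h : i < k) :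
    repN N k L g i = N i := if_pos h

theorem repN_ge {N : ℕ → ℝ} {k : ℕ} {L : ℝ} {g : ℕ} (j : ℕ) :
    repN N k L g (k + j) = L + (j : ℝ) * (2 * g * Real.log 2) := by
  unfold repN
  rw [if_neg (by omega), Nat.add_sub_cancel_left]

/-- **Replacing a level of a chain.** The hypothesis is on the labels up to level `k` of the new
chain. -/
theorem Chn.repl {M g k : ℕ} {B : ℕ → Bx F} {N : ℕ → ℝ} (h : Chn F A M g B N) (hk : k < M)
    {B' : Bx F} (hO : B'.Ok A) (hins : ∀ i, i + 1 = k → B'.Sub ((B i).sh g) A) {L : ℝ}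
    (hL : 0 ≤ L) (hc : Cnt F A (pt F) (clab (rep B k B' g) k) (Real.exp L)) :
    Chn F A M g (rep B k B' g) (repN N k L g) := by
  have hg0 : (0 : ℝ) ≤ 2 * g * Real.log 2 := by positivity
  refine ⟨fun i hi => ?_, fun i hi => ?_, fun i hi => ?_, fun i hi => ?_⟩
  · rcases lt_or_ge i k with h1 | h1
    · rw [rep_lt h1]
      exact h.ok i hi
    · obtain ⟨j, rfl⟩ := Nat.exists_eq_add_of_le h1
      rw [rep_ge]
      exact hO.its g j
  · rcases lt_trichotomy (i + 1) k with h1 | h1 | h1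
    · rw [rep_lt h1, rep_lt (by omega)]
      exact h.ins i hi
    · have e : rep B k B' g (i + 1) = B' := by
        have := rep_ge (B := B) (k := k) (B' := B') (g := g) 0
        rw [h1]
        exact this
      rw [e, rep_lt (show i < k by omega)]
      exact hins i h1
    · obtain ⟨j, rfl⟩ := Nat.exists_eq_add_of_le (show k ≤ i by omega)
      rw [show k + j + 1 = k + (j + 1) by omega, rep_ge, rep_ge]
      exact Bx.Sub.refl _
  · rcases lt_or_ge i k with h1 | h1
    · rw [repN_lt h1]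
      exact h.nn i hi
    · obtain ⟨j, rfl⟩ := Nat.exists_eq_add_of_le h1
      rw [repN_ge]
      positivity
  · rcases lt_or_ge i k with h1 | h1
    · rw [repN_lt h1]
      have e : clab (rep B k B' g) i = clab B i := by
        funext ω
        exact clab_congr (fun j hj => rep_lt (by omega)) ω
      rw [e]
      exact h.cnt i hi
    · obtain ⟨j, rfl⟩ := Nat.exists_eq_add_of_le h1
      clear h1
      induction j with
      | zero =>
        rw [Nat.add_zero]
        have e := repN_ge (N := N) (k := k) (L := L) (g := g) 0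
        rw [Nat.add_zero] at e
        rw [e]
        simpa using hc
      | succ j ih =>
        have k1 := ih (by omega)
        have k2 : Cnt F A (fun ω => (pt F ω, clab (rep B k B' g) (k + j) ω))
            (rep B k B' g (k + (j + 1))).lab (4 ^ g) := by
          rw [rep_ge]
          refine Bx.sh_cnt (hO.its g j) g fun ω ω' _ _ e => ?_
          have e2 : clab (rep B k B' g) (k + j) ω = clab (rep B k B' g) (k + j) ω' :=
            congrArg Prod.snd e
          have := clab_det (le_refl (k + j)) e2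
          rwa [rep_ge] at this
        have k3 := k1.pair k2
        have k4 : Cnt F A (pt F) (clab (rep B k B' g) (k + (j + 1)))
            (Real.exp (repN N k L g (k + j)) * 4 ^ g) := by
          refine k3.det fun ω ω' _ _ e => clab_ext fun i hi2 => ?_
          have e2 : (clab (rep B k B' g) (k + j) ω, (rep B k B' g (k + (j + 1))).lab ω) =
            (clab (rep B k B' g) (k + j) ω', (rep B k B' g (k + (j + 1))).lab ω') :=
            congrArg Prod.snd e
          rcases Nat.lt_or_ge i (k + (j + 1)) with h3 | h3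
          · exact clab_det (by omega) (congrArg Prod.fst e2)
          · obtain rfl : i = k + (j + 1) := by omega
            exact congrArg Prod.snd e2
        refine k4.mono (le_of_eq ?_)
        rw [repN_ge, repN_ge]
        have e4 : (4 : ℝ) ^ g = Real.exp (2 * g * Real.log 2) := by
          rw [show (2 : ℝ) * g * Real.log 2 = (g : ℝ) * (2 * Real.log 2) by ring, Real.exp_nat_mul,
            show (2 : ℝ) * Real.log 2 = ((2 : ℕ) : ℝ) * Real.log 2 by norm_num, Real.exp_nat_mul,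
            Real.exp_log (by norm_num)]
          norm_num
        rw [e4, ← Real.exp_add]
        congr 1
        push_cast
        ring

/-- Replacing the level `k` by a finer box which has at most `C` values given the exact point and
the labels up to level `k`. -/
theorem Chn.fin {M g k : ℕ} {B : ℕ → Bx F} {N : ℕ → ℝ} (h : Chn F A M g B N) (hk : k < M)
    {B' : Bx F} (hO : B'.Ok A) (hs : B'.Sub (B k) A) {L : ℝ} (hL : 0 ≤ L)
    (hc : Cnt F A (ptk B k) B'.lab (Real.exp L)) :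
    Chn F A M g (rep B k B' g) (repN N k (N k + L) g) := by
  refine h.repl hk hO (fun i hi => ?_) (add_nonneg (h.nn k hk) hL) ?_
  · subst hi
    exact hs.trans (h.ins i hk)
  · have k1 := (h.cnt k hk).pair hc
    rw [Real.exp_add]
    refine k1.det fun ω ω' _ _ e => clab_ext fun i hi => ?_
    have e2 : (clab B k ω, B'.lab ω) = (clab B k ω', B'.lab ω') := congrArg Prod.snd e
    rcases Nat.lt_or_ge i k with h3 | h3
    · rw [rep_lt h3]
      exact clab_det h3.le (congrArg Prod.fst e2)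
    · obtain rfl : i = k := by omega
      have e3 := rep_ge (B := B) (k := i) (B' := B') (g := g) 0
      rw [Nat.add_zero] at e3
      rw [e3]
      exact congrArg Prod.snd e2

/-- Replacing the level `k + 1` by the shrunk box of level `k`. -/
theorem Chn.shr {M g k : ℕ} {B : ℕ → Bx F} {N : ℕ → ℝ} (h : Chn F A M g B N) (hk : k + 1 < M) :
    Chn F A M g (rep B (k + 1) ((B k).sh g) g)
      (repN N (k + 1) (N k + 2 * g * Real.log 2) g) := by
  have hk' : k < M := by omega
  have hg0 : (0 : ℝ) ≤ 2 * g * Real.log 2 := by positivity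
  refine h.repl hk ((h.ok k hk').sh g) (fun i hi => ?_) (add_nonneg (h.nn k hk') hg0) ?_
  · obtain rfl : i = k := by omega
    exact Bx.Sub.refl _
  · have k2 : Cnt F A (fun ω => (pt F ω, clab B k ω)) ((B k).sh g).lab (4 ^ g) :=
      Bx.sh_cnt (h.ok k hk') g fun ω ω' _ _ e => clab_det le_rfl (congrArg Prod.snd e)
    have k3 := (h.cnt k hk').pair k2
    have e4 : (4 : ℝ) ^ g = Real.exp (2 * g * Real.log 2) := by
      rw [show (2 : ℝ) * g * Real.log 2 = (g : ℝ) * (2 * Real.log 2) by ring, Real.exp_nat_mul,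
        show (2 : ℝ) * Real.log 2 = ((2 : ℕ) : ℝ) * Real.log 2 by norm_num, Real.exp_nat_mul,
        Real.exp_log (by norm_num)]
      norm_num
    rw [Real.exp_add, ← e4]
    refine k3.det fun ω ω' _ _ e => clab_ext fun i hi => ?_
    have e2 : (clab B k ω, ((B k).sh g).lab ω) = (clab B k ω', ((B k).sh g).lab ω') :=
      congrArg Prod.snd e
    rcases Nat.lt_or_ge i (k + 1) with h3 | h3
    · rw [rep_lt h3]
      exact clab_det (by omega) (congrArg Prod.fst e2)
    · obtain rfl : i = k + 1 := by omega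
      have e3 := rep_ge (B := B) (k := k + 1) (B' := (B k).sh g) (g := g) 0
      rw [Nat.add_zero] at e3
      rw [e3]
      exact congrArg Prod.snd e2

/-- The trivial box. -/
noncomputable def Bx.one (F : Fam 2 J) : Bx F := ⟨0, fun _ => 0, 0, 0⟩

theorem Bx.one_ok : (Bx.one F).Ok A :=
  ⟨le_rfl, Nat.zero_le _, fun _ _ => by show |(0 : ℝ)| ≤ 1; norm_num⟩

/-- The trivial box has at most nine values. -/
theorem Bx.one_cnt {α : Type} {P : F.Ω → α} : Cnt F A P (Bx.one F).lab 9 := by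
  have key : ∀ ω, (Bx.one F).lab ω = (0, (⌊F.d ω 0⌋, ⌊F.d ω 1⌋)) := by
    intro ω
    show ((0 : ℝ), (⌊(2 : ℝ) ^ 0 * F.d ω 0⌋, ⌊(2 : ℝ) ^ 0 * (F.d ω (oth 0) - 0 * F.d ω 0)⌋)) = _
    have : oth 0 = 1 := rfl
    rw [this, pow_zero, one_mul, one_mul, zero_mul, sub_zero]
  refine Cnt.intro fun ω₀ _ => ⟨((Finset.Icc (-1 : ℤ) 1) ×ˢ (Finset.Icc (-1 : ℤ) 1)).image
    fun x => ((0 : ℝ), x), fun ω _ _ => ?_, ?_⟩
  · rw [key, mem_image]
    refine ⟨(⌊F.d ω 0⌋, ⌊F.d ω 1⌋), ?_, rfl⟩
    have hb : ∀ i, ⌊F.d ω i⌋ ∈ Finset.Icc (-1 : ℤ) 1 := by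
      intro i
      have := F.dir ω i
      rw [abs_le] at this
      rw [Finset.mem_Icc]
      constructor
      · rw [Int.le_floor]
        push_cast
        exact this.1
      · have h2 : ⌊F.d ω i⌋ < 2 := by
          rw [Int.floor_lt]
          push_cast
          linarith
        omega
    exact Finset.mem_product.2 ⟨hb 0, hb 1⟩
  · refine (Nat.cast_le.2 card_image_le).trans ?_
    rw [card_product, Int.card_Icc]
    have e : Int.toNat (1 + 1 - (-1)) = 3 := rfl
    rw [e]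
    norm_num

/-- **The trivial chain.** -/
theorem Chn.triv (F : Fam 2 J) (A : F.Ω → Prop) {M : ℕ} (g : ℕ) :
    Chn F A M g (fun j => (Bx.one F).its g j)
      (fun j => Real.log 9 + (j : ℝ) * (2 * g * Real.log 2)) := by
  have h9 : 0 ≤ Real.log 9 := Real.log_nonneg (by norm_num)
  have e4 : (4 : ℝ) ^ g = Real.exp (2 * g * Real.log 2) := by
    rw [show (2 : ℝ) * g * Real.log 2 = (g : ℝ) * (2 * Real.log 2) by ring, Real.exp_nat_mul,
      show (2 : ℝ) * Real.log 2 = ((2 : ℕ) : ℝ) * Real.log 2 by norm_num, Real.exp_nat_mul,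
      Real.exp_log (by norm_num)]
    norm_num
  refine ⟨fun i _ => Bx.one_ok.its g i, fun i _ => Bx.Sub.refl _, fun i _ => by positivity,
    fun i _ => ?_⟩
  induction i with
  | zero =>
    have k1 : Cnt F A (pt F) (Bx.one F).lab 9 := Bx.one_cnt
    have k2 : Cnt F A (pt F) (clab (fun j => (Bx.one F).its g j) 0) 9 := by
      refine k1.det fun ω ω' _ _ e => clab_ext fun i hi => ?_
      obtain rfl : i = 0 := by omega
      exact congrArg Prod.snd e
    refine k2.mono (le_of_eq ?_)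
    rw [Nat.cast_zero, zero_mul, add_zero, Real.exp_log (by norm_num)]
  | succ i ih =>
    have k1 := ih (by omega)
    have k2 : Cnt F A (fun ω => (pt F ω, clab (fun j => (Bx.one F).its g j) i ω))
        ((Bx.one F).its g (i + 1)).lab (4 ^ g) :=
      Bx.sh_cnt (Bx.one_ok.its g i) g fun ω ω' _ _ e =>
        clab_det (B := fun j => (Bx.one F).its g j) (le_refl i) (congrArg Prod.snd e)
    have k3 := k1.pair k2
    have k4 : Cnt F A (pt F) (clab (fun j => (Bx.one F).its g j) (i + 1))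
        (Real.exp (Real.log 9 + (i : ℝ) * (2 * g * Real.log 2)) * 4 ^ g) := by
      refine k3.det fun ω ω' _ _ e => clab_ext fun j hj => ?_
      have e2 : (clab (fun j => (Bx.one F).its g j) i ω, ((Bx.one F).its g (i + 1)).lab ω) =
        (clab (fun j => (Bx.one F).its g j) i ω', ((Bx.one F).its g (i + 1)).lab ω') :=
        congrArg Prod.snd e
      rcases Nat.lt_or_ge j (i + 1) with h3 | h3
      · exact clab_det (B := fun j => (Bx.one F).its g j) (show j ≤ i by omega)
          (congrArg Prod.fst e2)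
      · obtain rfl : j = i + 1 := by omega
        exact congrArg Prod.snd e2
    refine k4.mono (le_of_eq ?_)
    rw [e4, ← Real.exp_add]
    congr 1
    push_cast
    ring

end Pool.PC
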