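import Pool.Agent.H54.PC.Exa
import Pool.Agent.H67.PC.Modx
import Pool.Agent.H67.PC.Moda
import Pool.Agent.H34.PC.Geo

/-!
# Plan C: exactness and activity of the boxes
-/

set_option autoImplicit false

namespace Pool.PC

open Finset Real
open Pool.Agent.H49.Ent Pool.Agent.H32.Dense Pool.STK Pool.KA Pool.K2S Pool.PB Pool.KSAT

theorem modx : ModxStmt := modx_of geo_stmt34

theorem NearLine.mono {J : ℕ} {F : Fam 2 J} {B : Bx F} {A : F.Ω → Prop} {α : Type}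
    {P : F.Ω → α} {h h' : ℕ} (hN : NearLine F B A P h) (hh : h' ≤ h) : NearLine F B A P h' := by
  obtain ⟨lam, mu, nu, h1, h2⟩ := hN
  refine ⟨lam, mu, nu, h1, fun ω hω => ?_⟩
  obtain ⟨a1, a2, a3, a4⟩ := h2 ω hω
  refine ⟨a1, a2, a3, a4.trans ?_⟩
  exact one_div_le_one_div_of_le (by positivity) (pow_le_pow_right₀ (by norm_num) hh)

theorem sq_le_exp {c : ℝ} (hc : 0 < c) : ∃ J₁ : ℕ, ∀ J ≥ J₁,
    2 * ((J : ℝ) + 1) ^ 2 ≤ Real.exp (c * J) := by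
  obtain ⟨J₁, hJ₁⟩ := exists_nat_gt (8 * (3 / c) ^ 3)
  refine ⟨max J₁ 1, fun J hJ => ?_⟩
  have h1 : (1 : ℝ) ≤ J := by exact_mod_cast (le_max_right _ _).trans hJ
  have h2 : 8 * (3 / c) ^ 3 ≤ J := hJ₁.le.trans (Nat.cast_le.2 ((le_max_left _ _).trans hJ))
  have h3 : c * J / 3 ≤ Real.exp (c * J / 3) := by
    have := Real.add_one_le_exp (c * J / 3)
    linarith only [this]
  have h4 : (c * J / 3) ^ 3 ≤ Real.exp (c * J) := by
    have h5 := pow_le_pow_left₀ (by positivity) h3 3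
    rw [← Real.exp_nat_mul] at h5
    have e : ((3 : ℕ) : ℝ) * (c * J / 3) = c * J := by push_cast; ring
    rwa [e] at h5
  refine le_trans ?_ h4
  have h6 : 8 ≤ (c / 3) ^ 3 * J := by
    have h7 : (c / 3) ^ 3 * (8 * (3 / c) ^ 3) = 8 := by
      field_simp
    have := mul_le_mul_of_nonneg_left h2 (show (0 : ℝ) ≤ (c / 3) ^ 3 by positivity)
    linarith only [h7, this]
  have h8 : (c * J / 3) ^ 3 = ((c / 3) ^ 3 * J) * (J : ℝ) ^ 2 := by ring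
  rw [h8]
  have h9 : (0 : ℝ) < (J : ℝ) ^ 2 := by positivity
  nlinarith only [h1, h6, h9, mul_le_mul_of_nonneg_right h6 h9.le]

/-- **(EXA)** On no event of cost `ψ` the fans at the exact points with the labels are near
lines. -/
theorem exa {δ γ : ℝ} {M : ℕ} {S : PCl 2} {s : ℕ → ℝ} {k : ℕ} (hk : k < M)
    (hb : Bar S (bdec δ γ M) k s)
    (hpos : ∀ (τ : ℝ) (J : ℕ) (F : Fam 2 J) (A : F.Ω → Prop), S.St τ J F A → 0 < Pe F.p A) :
    ∀ h : ℝ, 0 < h → ∃ ψ > 0, ∃ J₁ : ℕ, ∀ J ≥ J₁,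
    ∀ (F : Fam 2 J) (A : F.Ω → Prop), S.St ψ J F A → ∀ (B : ℕ → Bx F) (N : ℕ → ℝ),
      Chn F A M (gp γ J) B N → Scs δ γ s ψ k B N →
      ∀ E : F.Ω → Prop, Sub E A → Real.exp (-(ψ * J)) * Pe F.p A ≤ Pe F.p E →
      (B k).n + ⌊h * J⌋₊ ≤ J → ¬ NearLine F (B k) E (ptk B k) ⌊h * J⌋₊ := by
  intro h hh
  have hl2 : 0 < Real.log 2 := Real.log_pos (by norm_num)
  obtain ⟨h₁, hh₁, hh₁'⟩ : ∃ h₁ > 0, h₁ = h * Real.log 2 / 16 := ⟨_, by positivity, rfl⟩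
  obtain ⟨ψ₁, hψ₁, J₁, hnb⟩ := no_better hk hb h₁ hh₁
  obtain ⟨J₂, hJ₂⟩ := sq_le_exp (half_pos hψ₁)
  obtain ⟨J₃, hJ₃⟩ := exists_nat_gt ((5 * Real.log 2 + 21 * Real.log 2 / δ) / (2 * h₁))
  obtain ⟨J₄, hJ₄⟩ := exists_nat_gt (20 / h)
  obtain ⟨ψ, hψ, e1, e2⟩ : ∃ ψ > 0, ψ ≤ ψ₁ / 2 ∧ ψ ≤ h₁ :=
    ⟨min (ψ₁ / 2) h₁, lt_min (half_pos hψ₁) hh₁, min_le_left _ _, min_le_right _ _⟩
  refine ⟨ψ, hψ, max (max J₁ J₂) (max J₃ J₄), fun J hJ F A hA B N hC hsc E hE hP hn hNL => ?_⟩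
  have hJ1 : J₁ ≤ J := (le_max_left _ _).trans ((le_max_left _ _).trans hJ)
  have hJ2 : J₂ ≤ J := (le_max_right _ _).trans ((le_max_left _ _).trans hJ)
  have hJ3 : J₃ ≤ J := (le_max_left _ _).trans ((le_max_right _ _).trans hJ)
  have hJ4 : J₄ ≤ J := (le_max_right _ _).trans ((le_max_right _ _).trans hJ)
  have hJr : (0 : ℝ) ≤ J := Nat.cast_nonneg J
  have hpA := hpos _ J F A hA
  have hpE : 0 < Pe F.p E := lt_of_lt_of_le (mul_pos (Real.exp_pos _) hpA) hP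
  have hhJ : 20 < h * J := by
    have : 20 / h < J := hJ₄.trans_le (Nat.cast_le.2 hJ4)
    rw [div_lt_iff₀ hh] at this
    linarith only [this]
  obtain ⟨g, hg⟩ : ∃ g : ℕ, g = (⌊h * J⌋₊ - 16) / 4 := ⟨_, rfl⟩
  have hf20 : 20 ≤ ⌊h * J⌋₊ := Nat.le_floor (by push_cast; linarith only [hhJ])
  have hg1 : 4 * g + 16 ≤ ⌊h * J⌋₊ := by omega
  have hg2 : ⌊h * J⌋₊ ≤ 4 * g + 19 := by omega
  have hg3 : h * J ≤ 4 * g + 20 := by
    have := Nat.lt_floor_add_one (h * (J : ℝ))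
    have h5 : (⌊h * J⌋₊ : ℝ) ≤ 4 * g + 19 := by exact_mod_cast hg2
    linarith only [this, h5]
  obtain ⟨A', B', hA', hPA', hO, hgain, hS, hcnt⟩ := modx J F E (B k) _ (ptk B k) g
    ((hC.ok k hk).sub hE) (ptk_det_lab B le_rfl) (hNL.mono hg1) (by omega) hpE
  have h21 : (2 : ℝ) ^ 21 = Real.exp (21 * Real.log 2) := by
    rw [show (21 : ℝ) * Real.log 2 = ((21 : ℕ) : ℝ) * Real.log 2 by norm_num, Real.exp_nat_mul,
      Real.exp_log (by norm_num)]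
  rw [h21] at hcnt
  have hPA'' : Real.exp (-(ψ₁ * J)) * Pe F.p A ≤ Pe F.p A' := by
    refine le_trans ?_ hPA'
    rw [le_div_iff₀ (by positivity)]
    have k1 := hJ₂ J hJ2
    have k2 : Real.exp (-(ψ₁ * J)) * (2 * ((J : ℝ) + 1) ^ 2) ≤ Real.exp (-(ψ * J)) := by
      refine (mul_le_mul_of_nonneg_left k1 (Real.exp_pos _).le).trans ?_
      rw [← Real.exp_add]
      refine Real.exp_le_exp.2 ?_
      nlinarith only [e1]
    calc Real.exp (-(ψ₁ * J)) * Pe F.p A * (2 * ((J : ℝ) + 1) ^ 2)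
        = Real.exp (-(ψ₁ * J)) * (2 * ((J : ℝ) + 1) ^ 2) * Pe F.p A := by ring
      _ ≤ Real.exp (-(ψ * J)) * Pe F.p A := mul_le_mul_of_nonneg_right k2 hpA.le
      _ ≤ _ := hP
  have hψψ : ψ ≤ ψ₁ := by linarith only [hψ, e1]
  have hlt := hnb J hJ1 F A (S.mono hψψ hA) B N hC (fun j hj => by
    have := hsc j hj.le
    have h5 : (s j - ψ₁) * (J : ℝ) ≤ (s j - ψ) * J :=
      mul_le_mul_of_nonneg_right (by linarith only [hψ, e1]) hJr
    linarith only [this, h5]) A' (fun ω hω => hE ω (hA' ω hω)) hPA'' B' (21 * Real.log 2) hO hS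
    (by positivity) hcnt
  have hk0 := hsc k le_rfl
  unfold nsc sco at hk0
  have hgr : ((B k).q : ℝ) + (B k).n + g ≤ B'.q + B'.n := by exact_mod_cast hgain
  have k3 : (((B k).q : ℝ) + (B k).n + g) * Real.log 2 ≤ ((B'.q : ℝ) + B'.n) * Real.log 2 :=
    mul_le_mul_of_nonneg_right hgr hl2.le
  have k4 : (N k + 21 * Real.log 2) / δ = N k / δ + 21 * Real.log 2 / δ := add_div _ _ _
  rw [k4] at hlt
  have k5 : (g : ℝ) * Real.log 2 < (h₁ + ψ) * J + 21 * Real.log 2 / δ := by nlinarith only [hlt, hk0, k3]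
  have k6 : (h * J / 4 - 5) * Real.log 2 ≤ g * Real.log 2 :=
    mul_le_mul_of_nonneg_right (by linarith only [hg3]) hl2.le
  have k7 : 2 * h₁ * J < 5 * Real.log 2 + 21 * Real.log 2 / δ := by
    have k8 : h * J / 4 * Real.log 2 = 4 * h₁ * J := by rw [hh₁']; ring
    have k9 : ψ * (J : ℝ) ≤ h₁ * J := mul_le_mul_of_nonneg_right e2 hJr
    nlinarith only [hlt, hk0, k3, k6, k8, k9]
  have k8 := hJ₃.trans_le (Nat.cast_le.2 hJ3 : (J₃ : ℝ) ≤ J)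
  rw [div_lt_iff₀ (by positivity)] at k8
  linarith only [k7, k8]

/-- **(ACT)** On every event of cost `ψ`, the next `x` digits of the direction have at least
`exp (δ x log 2 - h J)` values, given the exact point with the labels. -/
theorem act {δ γ : ℝ} (hδ : 0 < δ) {M : ℕ} {S : PCl 2} {s : ℕ → ℝ} {k : ℕ} (hk : k < M)
    (hb : Bar S (bdec δ γ M) k s) :
    ∀ h : ℝ, 0 < h → ∃ ψ > 0, ∃ J₁ : ℕ, ∀ J ≥ J₁,
    ∀ (F : Fam 2 J) (A : F.Ω → Prop), S.St ψ J F A → ∀ (B : ℕ → Bx F) (N : ℕ → ℝ),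
      Chn F A M (gp γ J) B N → Scs δ γ s ψ k B N →
      ∀ E : F.Ω → Prop, Sub E A → Real.exp (-(ψ * J)) * Pe F.p A ≤ Pe F.p E →
      ∀ (x : ℕ) (L : ℝ), (B k).q + x ≤ J → 0 ≤ L →
        Cnt F E (ptk B k) (fun ω => ⌊(2 : ℝ) ^ ((B k).q + x) * F.d ω (B k).i0⌋)
          (Real.exp L) → δ * x * Real.log 2 - h * J ≤ L := by
  intro h hh
  have hl2 : 0 < Real.log 2 := Real.log_pos (by norm_num)
  obtain ⟨h₁, hh₁, hh₁'⟩ : ∃ h₁ > 0, h₁ = h / (4 * δ) := ⟨_, by positivity, rfl⟩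
  obtain ⟨ψ₁, hψ₁, J₁, hnb⟩ := no_better hk hb h₁ hh₁
  obtain ⟨J₃, hJ₃⟩ := exists_nat_gt ((21 * Real.log 2 + δ * Real.log 2) / (h / 2))
  obtain ⟨ψ, hψ, e1, e2⟩ : ∃ ψ > 0, ψ ≤ ψ₁ ∧ ψ ≤ h₁ :=
    ⟨min ψ₁ h₁, lt_min hψ₁ hh₁, min_le_left _ _, min_le_right _ _⟩
  refine ⟨ψ, hψ, max J₁ J₃, fun J hJ F A hA B N hC hsc E hE hP x L hx hL hcnt => ?_⟩
  have hJ1 : J₁ ≤ J := (le_max_left _ _).trans hJ
  have hJ3 : J₃ ≤ J := (le_max_right _ _).trans hJ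
  have hJr : (0 : ℝ) ≤ J := Nat.cast_nonneg J
  obtain ⟨B', hO, hgain, hS, hcnt'⟩ := moda J F E (B k) _ (ptk B k) x L
    ((hC.ok k hk).sub hE) (ptk_det_lab B le_rfl) hx hcnt
  have h21 : (2 : ℝ) ^ 21 = Real.exp (21 * Real.log 2) := by
    rw [show (21 : ℝ) * Real.log 2 = ((21 : ℕ) : ℝ) * Real.log 2 by norm_num, Real.exp_nat_mul,
      Real.exp_log (by norm_num)]
  rw [h21, ← Real.exp_add] at hcnt'
  have hlt := hnb J hJ1 F A (S.mono e1 hA) B N hC (fun j hj => by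
    have := hsc j hj.le
    have h5 : (s j - ψ₁) * (J : ℝ) ≤ (s j - ψ) * J :=
      mul_le_mul_of_nonneg_right (by linarith only [e1]) hJr
    linarith only [this, h5]) E hE (le_trans (mul_le_mul_of_nonneg_right (Real.exp_le_exp.2 (by
      have : ψ * (J : ℝ) ≤ ψ₁ * J := mul_le_mul_of_nonneg_right e1 hJr
      linarith only [this])) (Pe_nonneg F.isLaw A)) hP) B' (21 * Real.log 2 + L) hO hS
    (by positivity) hcnt'
  have hk0 := hsc k le_rfl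
  unfold nsc sco at hk0
  have hgr : ((B k).q : ℝ) + (B k).n + x - 1 ≤ B'.q + B'.n := by
    have : ((B k).q : ℝ) + (B k).n + x ≤ B'.q + B'.n + 1 := by exact_mod_cast hgain
    linarith only [this]
  have k3 : (((B k).q : ℝ) + (B k).n + x - 1) * Real.log 2 ≤ ((B'.q : ℝ) + B'.n) * Real.log 2 :=
    mul_le_mul_of_nonneg_right hgr hl2.le
  have k4 : (N k + (21 * Real.log 2 + L)) / δ = N k / δ + (21 * Real.log 2 + L) / δ :=
    add_div _ _ _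
  rw [k4] at hlt
  have k5 : ((x : ℝ) - 1) * Real.log 2 < (h₁ + ψ) * J + (21 * Real.log 2 + L) / δ := by
    nlinarith only [hlt, hk0, k3]
  have k6 : δ * (((x : ℝ) - 1) * Real.log 2) < δ * ((h₁ + ψ) * J) + (21 * Real.log 2 + L) := by
    have := mul_lt_mul_of_pos_left k5 hδ
    have e : δ * ((h₁ + ψ) * J + (21 * Real.log 2 + L) / δ) =
        δ * ((h₁ + ψ) * J) + (21 * Real.log 2 + L) := by
      field_simp
    rwa [e] at this
  have k7 : δ * ((h₁ + ψ) * J) ≤ h / 2 * J := by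
    have : (h₁ + ψ) * J ≤ 2 * h₁ * J := mul_le_mul_of_nonneg_right (by linarith only [e2]) hJr
    have := mul_le_mul_of_nonneg_left this hδ.le
    refine this.trans (le_of_eq ?_)
    rw [hh₁']
    field_simp
    ring
  have k8 := hJ₃.trans_le (Nat.cast_le.2 hJ3 : (J₃ : ℝ) ≤ J)
  rw [div_lt_iff₀ (by positivity)] at k8
  nlinarith only [k6, k7, k8]

end Pool.PC
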