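import Pool.Agent.H54.PC.Chain
import Pool.Agent.H69.PC.Lex

/-!
# Plan C: chains of boxes as decorations of a class

The coordinates: first the normalised scores of the levels, then, in an enumeration, the precisions
`q`, `n` of the boxes, the closedness of the slopes on windows (`rot`), and (with the sign minus) the
logarithms of the numbers of values of the digits of the direction, given the exact point with the
labels (`act`).
-/

set_option autoImplicit false

namespace Pool.PC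

open Finset Real
open Pool.Agent.H49.Ent Pool.Agent.H32.Dense Pool.STK Pool.KA Pool.K2S Pool.PB Pool.KSAT

/-- The normalised score: shrinking does not decrease it. -/
noncomputable def nsc {J : ℕ} {F : Fam 2 J} (δ : ℝ) (g : ℕ) (B : ℕ → Bx F) (N : ℕ → ℝ) (k : ℕ) :
    ℝ := sco δ B N k + k * (2 * g * Real.log 2) / δ

/-- The kinds of coordinates. -/
inductive Knd
  | sc (k : ℕ)
  | qq (k : ℕ)
  | nn (k : ℕ)
  | rot (k : ℕ) (w : ℚ)
  | act (k : ℕ) (q : ℚ)
  | no

/-- The coordinate of the given kind is at least `s`. -/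
def Knd.at {J : ℕ} (x : Knd) (δ : ℝ) (g : ℕ) (F : Fam 2 J) (A : F.Ω → Prop) (B : ℕ → Bx F)
    (N : ℕ → ℝ) (s : ℝ) : Prop :=
  match x with
  | .sc k => s * J ≤ nsc δ g B N k
  | .qq k => s * J ≤ (B k).q
  | .nn k => s * J ≤ (B k).n
  | .rot k w => ∃ r : ℕ, s * J ≤ r ∧ r + (B k).q ≤ (B k).n ∧ Clo F A (B k).a ⌊(w : ℝ) * J⌋₊ r
  | .act k q => Cnt F A (ptk B k) (fun ω => ⌊(2 : ℝ) ^ ⌊(q : ℝ) * J⌋₊ * F.d ω (B k).i0⌋)
      (Real.exp (-(s * J)))
  | .no => s ≤ 0

/-- Lower bounds. -/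
noncomputable def Knd.lo : Knd → ℝ
  | .sc _ => -1
  | .qq _ => 0
  | .nn _ => 0
  | .rot _ _ => 0
  | .act _ q => -(|(q : ℝ)| * Real.log 2 + 1)
  | .no => 0

/-- Upper bounds. -/
noncomputable def Knd.up (δ γ : ℝ) : Knd → ℝ
  | .sc k => 2 * Real.log 2 + k * (2 * γ * Real.log 2) / δ
  | .qq _ => 1
  | .nn _ => 1
  | .rot _ _ => 1
  | .act _ _ => 0
  | .no => 0

/-- The kind of the coordinate `i`. -/
noncomputable def knd (M i : ℕ) : Knd :=
  if i < M then .sc i else
    match (Encodable.decode (i - M) : Option (Fin 4 × ℕ × ℚ)) with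
    | none => .no
    | some (t, k, r) => if k < M then
        (match t with
        | 0 => .qq k
        | 1 => .nn k
        | 2 => .rot k r
        | 3 => .act k r) else .no

/-- The level of the kind. -/
def Knd.lev : Knd → ℕ → Prop
  | .sc k, M => k < M
  | .qq k, M => k < M
  | .nn k, M => k < M
  | .rot k _, M => k < M
  | .act k _, M => k < M
  | .no, _ => True

theorem knd_lt {M i : ℕ} (h : i < M) : knd M i = .sc i := if_pos h

theorem knd_lev (M i : ℕ) : (knd M i).lev M := by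
  unfold knd
  by_cases h : i < M
  · rw [if_pos h]
    exact h
  · rw [if_neg h]
    rcases (Encodable.decode (i - M) : Option (Fin 4 × ℕ × ℚ)) with _ | ⟨t, k, r⟩
    · exact trivial
    · dsimp only
      by_cases hk : k < M
      · rw [if_pos hk]
        fin_cases t <;> exact hk
      · rw [if_neg hk]
        exact trivial

theorem knd_enc {M : ℕ} (t : Fin 4) {k : ℕ} (hk : k < M) (r : ℚ) :
    ∃ i, M ≤ i ∧ knd M i = (match t with
        | 0 => .qq k
        | 1 => .nn k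
        | 2 => .rot k r
        | 3 => .act k r) := by
  refine ⟨M + Encodable.encode (t, k, r), Nat.le_add_right _ _, ?_⟩
  unfold knd
  rw [if_neg (by omega), Nat.add_sub_cancel_left, Encodable.encodek]
  dsimp only
  rw [if_pos hk]

theorem knd_qq {M k : ℕ} (hk : k < M) : ∃ i, M ≤ i ∧ knd M i = .qq k := knd_enc 0 hk 0

theorem knd_nn {M k : ℕ} (hk : k < M) : ∃ i, M ≤ i ∧ knd M i = .nn k := knd_enc 1 hk 0

theorem knd_rot {M k : ℕ} (hk : k < M) (w : ℚ) : ∃ i, M ≤ i ∧ knd M i = .rot k w :=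
  knd_enc 2 hk w

theorem knd_act {M k : ℕ} (hk : k < M) (q : ℚ) : ∃ i, M ≤ i ∧ knd M i = .act k q :=
  knd_enc 3 hk q

section

variable {J : ℕ} {F : Fam 2 J} {A A' : F.Ω → Prop} {δ : ℝ} {g : ℕ} {B : ℕ → Bx F} {N : ℕ → ℝ}

theorem Knd.at.anti {x : Knd} {s s' : ℝ} (h : x.at δ g F A B N s) (hs : s' ≤ s) :
    x.at δ g F A B N s' := by
  have hJ : s' * (J : ℝ) ≤ s * J := mul_le_mul_of_nonneg_right hs (Nat.cast_nonneg J)
  cases x with
  | sc k => exact hJ.trans h
  | qq k => exact hJ.trans h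
  | nn k => exact hJ.trans h
  | rot k w =>
    obtain ⟨r, h1, h2⟩ := h
    exact ⟨r, hJ.trans h1, h2⟩
  | act k q => exact Cnt.mono h (Real.exp_le_exp.2 (by linarith))
  | no => exact hs.trans h

theorem Clo.sub {a : F.Ω → ℝ} {w r : ℕ} (h : Clo F A a w r) (hA : ∀ ω, A' ω → A ω) :
    Clo F A' a w r := fun ω ω' h1 h2 => h ω ω' (h1.mono hA) (h2.mono hA)

theorem Knd.at.sub {x : Knd} {s : ℝ} (h : x.at δ g F A B N s) (hA : ∀ ω, A' ω → A ω) :
    x.at δ g F A' B N s := by
  cases x with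
  | sc k => exact h
  | qq k => exact h
  | nn k => exact h
  | rot k w =>
    obtain ⟨r, h1, h2, h3⟩ := h
    exact ⟨r, h1, h2, h3.sub hA⟩
  | act k q => exact Cnt.sub h hA
  | no => exact h

/-- A coordinate depends only on the levels up to its level. -/
theorem Knd.at.congr {x : Knd} {s : ℝ} {B' : ℕ → Bx F} {N' : ℕ → ℝ} {k : ℕ}
    (h : x.at δ g F A B N s) (hx : x.lev (k + 1)) (hB : ∀ i ≤ k, B' i = B i)
    (hN : ∀ i ≤ k, N' i = N i) : x.at δ g F A B' N' s := by
  cases x with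
  | sc j =>
    have hj : j ≤ k := Nat.lt_succ_iff.1 hx
    show s * J ≤ nsc δ g B' N' j
    unfold nsc sco
    rw [hB j hj, hN j hj]
    exact h
  | qq j =>
    show s * J ≤ (B' j).q
    rw [hB j (Nat.lt_succ_iff.1 hx)]
    exact h
  | nn j =>
    show s * J ≤ (B' j).n
    rw [hB j (Nat.lt_succ_iff.1 hx)]
    exact h
  | rot j w =>
    obtain ⟨r, h1, h2, h3⟩ := h
    refine ⟨r, h1, ?_, ?_⟩
    · rw [hB j (Nat.lt_succ_iff.1 hx)]
      exact h2
    · rw [hB j (Nat.lt_succ_iff.1 hx)]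
      exact h3
  | act j q =>
    have hj : j ≤ k := Nat.lt_succ_iff.1 hx
    have e : ptk B' j = ptk B j := by
      funext ω
      show (pt F ω, clab B' j ω) = (pt F ω, clab B j ω)
      rw [clab_congr (fun i hi => hB i (hi.trans hj)) ω]
    show Cnt F A (ptk B' j) (fun ω => ⌊(2 : ℝ) ^ ⌊(q : ℝ) * J⌋₊ * F.d ω (B' j).i0⌋) _
    rw [e, hB j hj]
    exact h
  | no => exact h

/-- Digits of the direction: the trivial bound for the number of values. -/
theorem Cnt.dir {α : Type} {P : F.Ω → α} (i : Fin 2) (q : ℕ) :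
    Cnt F A P (fun ω => ⌊(2 : ℝ) ^ q * F.d ω i⌋) (3 * 2 ^ q) := by
  refine Cnt.intro fun ω₀ _ => ⟨Finset.Icc (-(2 : ℤ) ^ q) (2 ^ q), fun ω _ _ => ?_, ?_⟩
  · have h1 := F.dir ω i
    rw [abs_le] at h1
    have h2 : (0 : ℝ) < 2 ^ q := by positivity
    rw [Finset.mem_Icc]
    constructor
    · rw [Int.le_floor]
      push_cast
      nlinarith [h1.1]
    · have h3 : (⌊(2 : ℝ) ^ q * F.d ω i⌋ : ℝ) ≤ 2 ^ q := by
        refine (Int.floor_le _).trans ?_
        nlinarith [h1.2]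
      exact_mod_cast h3
  · rw [Int.card_Icc]
    have e : (2 : ℤ) ^ q + 1 - -(2 : ℤ) ^ q = ((2 * 2 ^ q + 1 : ℕ) : ℤ) := by push_cast; ring
    rw [e, Int.toNat_natCast]
    push_cast
    have : (1 : ℝ) ≤ 2 ^ q := one_le_pow₀ (by norm_num)
    linarith

/-- The lower bounds hold for all chains, for large `J`, except for the scores. -/
theorem Knd.at.low {x : Knd} {M : ℕ} (hC : Chn F A M g B N) (hx : x.lev M)
    (hsc : ∀ k, x ≠ .sc k) (hJ : Real.log 3 ≤ J) : x.at δ g F A B N x.lo := by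
  cases x with
  | sc k => exact absurd rfl (hsc k)
  | qq k =>
    show (0 : ℝ) * J ≤ _
    rw [zero_mul]
    exact Nat.cast_nonneg _
  | nn k =>
    show (0 : ℝ) * J ≤ _
    rw [zero_mul]
    exact Nat.cast_nonneg _
  | rot k w =>
    refine ⟨0, ?_, ?_, fun ω ω' h1 h2 _ => ?_⟩
    · show (0 : ℝ) * J ≤ _
      rw [zero_mul, Nat.cast_zero]
    · rw [zero_add]
      exact (hC.ok k hx).le
    · have k1 := abs_le.1 ((hC.ok k hx).sl ω h1)
      have k2 := abs_le.1 ((hC.ok k hx).sl ω' h2)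
      rw [pow_zero, abs_le]
      constructor <;> linarith
  | act k q =>
    have hl2 : 0 < Real.log 2 := Real.log_pos (by norm_num)
    refine (Cnt.dir (B k).i0 ⌊(q : ℝ) * J⌋₊).mono ?_
    have e1 : (3 : ℝ) * 2 ^ ⌊(q : ℝ) * J⌋₊ =
        Real.exp (Real.log 3 + (⌊(q : ℝ) * J⌋₊ : ℝ) * Real.log 2) := by
      rw [Real.exp_add, Real.exp_log (by norm_num), Real.exp_nat_mul, Real.exp_log (by norm_num)]
    rw [e1]
    refine Real.exp_le_exp.2 ?_
    have e2 : ((⌊(q : ℝ) * J⌋₊ : ℕ) : ℝ) ≤ |(q : ℝ)| * J := by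
      rcases le_or_gt 0 ((q : ℝ) * J) with h1 | h1
      · refine (Nat.floor_le h1).trans ?_
        exact mul_le_mul_of_nonneg_right (le_abs_self _) (Nat.cast_nonneg J)
      · rw [Nat.floor_of_nonpos h1.le, Nat.cast_zero]
        positivity
    have e3 := mul_le_mul_of_nonneg_right e2 hl2.le
    show _ ≤ -(-(|(q : ℝ)| * Real.log 2 + 1) * (J : ℝ))
    nlinarith
  | no => exact le_refl (0 : ℝ)

/-- The upper bounds hold for all chains. -/
theorem Knd.at.high {x : Knd} {M : ℕ} {γ s : ℝ} (h : x.at δ g F A B N s)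
    (hC : Chn F A M g B N) (hx : x.lev M) (hδ : 0 < δ) (hg : (g : ℝ) ≤ γ * J) (hJ : 0 < J)
    (hA : ∃ ω, On F A ω) : s ≤ x.up δ γ := by
  have hJ' : (0 : ℝ) < J := Nat.cast_pos.2 hJ
  have hl2 : 0 < Real.log 2 := Real.log_pos (by norm_num)
  cases x with
  | sc k =>
    have h1 : ((B k).q : ℝ) ≤ J := Nat.cast_le.2 ((hC.ok k hx).le.trans (hC.ok k hx).leJ)
    have h2 : ((B k).n : ℝ) ≤ J := Nat.cast_le.2 (hC.ok k hx).leJ
    have h3 := hC.nn k hx
    have h4 : s * J ≤ nsc δ g B N k := h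
    unfold nsc sco at h4
    have h5 : 0 ≤ N k / δ := div_nonneg h3 hδ.le
    have h6 : (k : ℝ) * (2 * g * Real.log 2) / δ ≤ k * (2 * γ * Real.log 2) / δ * J := by
      rw [div_mul_eq_mul_div]
      refine div_le_div_of_nonneg_right ?_ hδ.le
      have : (2 : ℝ) * g * Real.log 2 ≤ 2 * (γ * J) * Real.log 2 := by nlinarith
      calc (k : ℝ) * (2 * g * Real.log 2) ≤ k * (2 * (γ * J) * Real.log 2) :=
            mul_le_mul_of_nonneg_left this (Nat.cast_nonneg k)
        _ = _ := by ring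
    have h7 : s * J ≤ (2 * Real.log 2 + k * (2 * γ * Real.log 2) / δ) * J := by nlinarith
    exact le_of_mul_le_mul_right h7 hJ'
  | qq k =>
    have h1 : ((B k).q : ℝ) ≤ J := Nat.cast_le.2 ((hC.ok k hx).le.trans (hC.ok k hx).leJ)
    have h4 : s * J ≤ (B k).q := h
    exact le_of_mul_le_mul_right (show s * J ≤ 1 * J by linarith) hJ'
  | nn k =>
    have h2 : ((B k).n : ℝ) ≤ J := Nat.cast_le.2 (hC.ok k hx).leJ
    have h4 : s * J ≤ (B k).n := h
    exact le_of_mul_le_mul_right (show s * J ≤ 1 * J by linarith) hJ'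
  | rot k w =>
    obtain ⟨r, h1, h2, -⟩ := h
    have h3 : (r : ℝ) ≤ J := Nat.cast_le.2 (by have := (hC.ok k hx).leJ; omega)
    exact le_of_mul_le_mul_right (show s * J ≤ 1 * J by linarith) hJ'
  | act k q =>
    obtain ⟨ω, hω⟩ := hA
    have h1 := Cnt.one_le h hω
    rw [← Real.exp_zero, Real.exp_le_exp] at h1
    show s ≤ 0
    by_contra hcon
    push Not at hcon
    have := mul_pos hcon hJ'
    linarith
  | no => exact h

end

/-! ### The decoration -/

/-- The gap. -/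
noncomputable def gp (γ : ℝ) (J : ℕ) : ℕ := ⌊γ * J⌋₊

theorem gp_le {γ : ℝ} (hγ : 0 ≤ γ) (J : ℕ) : (gp γ J : ℝ) ≤ γ * J :=
  Nat.floor_le (by positivity)

/-- **The decoration: a chain of `M` boxes with gaps `γ J`.** -/
noncomputable def bdec (δ γ : ℝ) (M : ℕ) : Dec 2 where
  Q v J F A := ∃ (B : ℕ → Bx F) (N : ℕ → ℝ), Chn F A M (gp γ J) B N ∧
    ∀ i, v i ≤ (knd M i).lo ∨ (knd M i).at δ (gp γ J) F A B N (v i)
  lo i := (knd M i).lo
  up i := (knd M i).up δ γ
  her := by
    rintro v J F A A' hA ⟨B, N, h1, h2⟩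
    exact ⟨B, N, h1.sub hA, fun i => (h2 i).imp id fun h => h.sub hA⟩
  anti := by
    rintro v v' J F A hv ⟨B, N, h1, h2⟩
    exact ⟨B, N, h1, fun i => (h2 i).imp (fun h => (hv i).trans h) fun h => h.anti (hv i)⟩
  bnd := by
    rintro v J F A ⟨B, N, h1, h2⟩
    refine ⟨B, N, h1, fun i => ?_⟩
    show max (v i) (knd M i).lo ≤ (knd M i).lo ∨
      (knd M i).at δ (gp γ J) F A B N (max (v i) (knd M i).lo)
    rcases le_total (v i) (knd M i).lo with h | h
    · rw [max_eq_right h]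
      exact Or.inl le_rfl
    · rw [max_eq_left h]
      exact h2 i

/-- **The thresholds of the chains of boxes.** -/
theorem box_lex {δ γ : ℝ} (hδ : 0 < δ) (hγ : 0 < γ) (M : ℕ) {S : PCl 2} (hS : S.Ne)
    (hpos : ∀ (τ : ℝ) (J : ℕ) (F : Fam 2 J) (A : F.Ω → Prop), S.St τ J F A → 0 < Pe F.p A) :
    ∃ s : ℕ → ℝ, (∀ i, (knd M i).lo ≤ s i ∧ s i ≤ (knd M i).up δ γ) ∧
      (S.sl ((bdec δ γ M).sld s)).Ne ∧ ∀ i, Bar S (bdec δ γ M) i s := by
  refine lex S (bdec δ γ M) hS ?_ ?_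
  · refine Clp.of one_pos 0 fun J _ F A _ => ⟨fun i => (knd M i).lo, ?_⟩
    exact ⟨_, _, Chn.triv F A (gp γ J), fun i => Or.inl le_rfl⟩
  · intro i
    refine Clp.of one_pos 1 fun J hJ F A hA v hv => ?_
    have hon : ∃ ω, On F A ω := by
      by_contra hcon
      push Not at hcon
      have h0 := hpos _ J F A hA
      have : Pe F.p A = 0 := by
        classical
        unfold Pe
        refine Finset.sum_eq_zero fun ω _ => ?_
        by_cases hω : A ω
        · rw [if_pos (eq_true hω)]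
          refine le_antisymm ?_ (F.isLaw.nonneg ω)
          by_contra h2
          push Not at h2
          exact hcon ω ⟨h2, hω⟩
        · rw [if_neg (by simpa using hω)]
      linarith
    have hJ' : (0 : ℝ) < J := Nat.cast_pos.2 hJ
    obtain ⟨B, N, h1, h2⟩ := hv
    rcases h2 i with h | h
    · refine h.trans ?_
      show (knd M i).lo ≤ (knd M i).up δ γ
      have hl2 : 0 < Real.log 2 := Real.log_pos (by norm_num)
      rcases (knd M i) with k | k | k | ⟨k, w⟩ | ⟨k, q⟩ | _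
      · show (-1 : ℝ) ≤ 2 * Real.log 2 + k * (2 * γ * Real.log 2) / δ
        have : 0 ≤ (k : ℝ) * (2 * γ * Real.log 2) / δ := by positivity
        linarith
      · exact zero_le_one
      · exact zero_le_one
      · exact zero_le_one
      · show -(|(q : ℝ)| * Real.log 2 + 1) ≤ 0
        have : 0 ≤ |(q : ℝ)| * Real.log 2 := by positivity
        linarith
      · exact le_refl (0 : ℝ)
    · exact h.high h1 (knd_lev M i) hδ (gp_le hγ.le J) hJ hon

end Pool.PC
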