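import Pool.Agent.H54.PC.Deco

/-!
# Plan C: consequences of the maximality of the scores
-/

set_option autoImplicit false

namespace Pool.PC

open Finset Real
open Pool.Agent.H49.Ent Pool.Agent.H32.Dense Pool.STK Pool.KA Pool.K2S Pool.PB Pool.KSAT

/-- A chain with scores at least `s - ψ` up to the level `k`. -/
def Scs {J : ℕ} (δ γ : ℝ) (s : ℕ → ℝ) (ψ : ℝ) (k : ℕ) {F : Fam 2 J} (B : ℕ → Bx F)
    (N : ℕ → ℝ) : Prop := ∀ j ≤ k, (s j - ψ) * J ≤ nsc δ (gp γ J) B N j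

/-- **No finer box**: a box inside the box of level `k`, on an event of cost `ψ`, with `exp L`
values given the exact point with the labels, has no larger score. -/
theorem no_better {δ γ : ℝ} {M : ℕ} {S : PCl 2} {s : ℕ → ℝ} {k : ℕ} (hk : k < M)
    (hb : Bar S (bdec δ γ M) k s) : ∀ h > 0, ∃ ψ > 0, ∃ J₁ : ℕ, ∀ J ≥ J₁,
    ∀ (F : Fam 2 J) (A : F.Ω → Prop), S.St ψ J F A → ∀ (B : ℕ → Bx F) (N : ℕ → ℝ),
      Chn F A M (gp γ J) B N → (∀ j < k, (s j - ψ) * J ≤ nsc δ (gp γ J) B N j) →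
      ∀ E : F.Ω → Prop, Sub E A → Real.exp (-(ψ * J)) * Pe F.p A ≤ Pe F.p E →
      ∀ (B' : Bx F) (L : ℝ), B'.Ok E → B'.Sub (B k) E → 0 ≤ L →
        Cnt F E (ptk B k) B'.lab (Real.exp L) →
        ((B'.q : ℝ) + B'.n) * Real.log 2 - (N k + L) / δ +
          k * (2 * (gp γ J : ℝ) * Real.log 2) / δ < (s k + h) * J := by
  intro h hh
  obtain ⟨ψ, hψ, J₁, h1⟩ := hb h hh
  refine ⟨ψ, hψ, J₁, fun J hJ F A hA B N hC hsc E hE hP B' L hO hS hL hc => ?_⟩
  by_contra hcon
  push Not at hcon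
  refine h1 J hJ F A hA E hE hP (fun i => if i < k then s i - ψ else if i = k then s k + h else
    (knd M i).lo) (fun j hj => ?_) ?_ ?_
  · show s j - ψ ≤ if j < k then s j - ψ else _
    rw [if_pos hj]
  · show s k + h ≤ if k < k then _ else if k = k then s k + h else _
    rw [if_neg (lt_irrefl k), if_pos rfl]
  · refine ⟨rep B k B' (gp γ J), repN N k (N k + L) (gp γ J), (hC.sub hE).fin hk hO hS hL hc,
      fun i => ?_⟩
    show (if i < k then s i - ψ else if i = k then s k + h else (knd M i).lo) ≤ _ ∨ (knd M i).at δ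
      (gp γ J) F E _ _ (if i < k then s i - ψ else if i = k then s k + h else (knd M i).lo)
    rcases lt_trichotomy i k with hi | hi | hi
    · rw [if_pos hi, knd_lt (hi.trans hk)]
      refine Or.inr ?_
      show (s i - ψ) * J ≤ nsc δ (gp γ J) _ _ i
      unfold nsc sco
      rw [rep_lt hi, repN_lt hi]
      exact hsc i hi
    · subst hi
      rw [if_neg (lt_irrefl i), if_pos rfl, knd_lt hk]
      refine Or.inr ?_
      show (s i + h) * J ≤ nsc δ (gp γ J) _ _ i
      have e1 := rep_ge (B := B) (k := i) (B' := B') (g := gp γ J) 0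
      have e2 := repN_ge (N := N) (k := i) (L := N i + L) (g := gp γ J) 0
      rw [Nat.add_zero] at e1 e2
      unfold nsc sco
      rw [e1, e2]
      refine hcon.trans (le_of_eq ?_)
      show _ = ((B'.q : ℝ) + B'.n) * Real.log 2 - (N i + L + ((0 : ℕ) : ℝ) * _) / δ + _
      rw [Nat.cast_zero, zero_mul, add_zero]
    · rw [if_neg (by omega), if_neg (by omega)]
      exact Or.inl le_rfl

theorem Pe_exp_le {J : ℕ} {F : Fam 2 J} {ψ : ℝ} (hψ : 0 ≤ ψ) (A : F.Ω → Prop) :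
    Real.exp (-(ψ * J)) * Pe F.p A ≤ Pe F.p A := by
  have : Real.exp (-(ψ * J)) ≤ 1 := by
    rw [Real.exp_le_one_iff]
    have : 0 ≤ ψ * J := by positivity
    linarith
  calc _ ≤ 1 * Pe F.p A := mul_le_mul_of_nonneg_right this (Pe_nonneg F.isLaw A)
    _ = _ := one_mul _

/-- **The scores are not negative.** -/
theorem sc_nonneg {δ γ : ℝ} {M : ℕ} {S : PCl 2} {s : ℕ → ℝ}
    (hN : (S.sl ((bdec δ γ M).sld s)).Ne) (hb : ∀ i < M, Bar S (bdec δ γ M) i s) :
    ∀ k < M, 0 ≤ s k := by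
  have hl2 : 0 < Real.log 2 := Real.log_pos (by norm_num)
  intro k
  induction k using Nat.strong_induction_on with
  | _ k ih =>
  intro hk
  by_contra hcon
  push Not at hcon
  obtain ⟨ψ, hψ, J₁, h1⟩ := hb k hk (-s k / 2) (by linarith)
  rcases Nat.eq_zero_or_pos k with hk0 | hk0
  · subst hk0
    obtain ⟨J₂, hJ₂⟩ := exists_nat_gt (Real.log 9 / δ / (-s 0 / 2))
    obtain ⟨J, hJ, F, A, hA, -⟩ := hN ψ hψ (max J₁ J₂)
    refine h1 J ((le_max_left _ _).trans hJ) F A hA A (fun _ h => h) (Pe_exp_le hψ.le A)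
      (fun i => if i = 0 then s 0 + -s 0 / 2 else (knd M i).lo)
      (fun j hj => absurd hj (Nat.not_lt_zero j)) (le_of_eq (if_pos rfl).symm) ?_
    refine ⟨_, _, Chn.triv F A (gp γ J), fun i => ?_⟩
    show (if i = 0 then s 0 + -s 0 / 2 else (knd M i).lo) ≤ _ ∨ (knd M i).at δ
      (gp γ J) F A _ _ (if i = 0 then s 0 + -s 0 / 2 else (knd M i).lo)
    rcases Nat.eq_zero_or_pos i with hi | hi
    · subst hi
      rw [if_pos rfl, knd_lt hk]
      refine Or.inr ?_
      show (s 0 + -s 0 / 2) * J ≤ nsc δ (gp γ J) _ _ 0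
      unfold nsc sco
      have hJ3 : Real.log 9 / δ / (-s 0 / 2) < J :=
        hJ₂.trans_le (Nat.cast_le.2 ((le_max_right _ _).trans hJ))
      rw [div_lt_iff₀ (by linarith)] at hJ3
      show _ ≤ (((0 : ℕ) : ℝ) + ((0 : ℕ) : ℝ)) * Real.log 2 -
        (Real.log 9 + ((0 : ℕ) : ℝ) * _) / δ + ((0 : ℕ) : ℝ) * _ / δ
      rw [Nat.cast_zero]
      simp only [zero_mul, add_zero, zero_sub, zero_div]
      linarith
    · rw [if_neg (by omega)]
      exact Or.inl le_rfl
  · obtain ⟨k, rfl⟩ : ∃ k', k = k' + 1 := ⟨k - 1, by omega⟩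
    clear hk0
    obtain ⟨τ, hτ, hτ1, hτ2, hτ3⟩ : ∃ τ > 0, τ ≤ ψ ∧ ((k : ℝ) + 1) * τ ≤ 1 / 2 ∧
        τ ≤ -s (k + 1) / 2 := by
      refine ⟨min ψ (min (1 / (2 * ((k : ℝ) + 1))) (-s (k + 1) / 2)),
        lt_min hψ (lt_min (by positivity) (by linarith)), min_le_left _ _, ?_, ?_⟩
      · have h2 : min ψ (min (1 / (2 * ((k : ℝ) + 1))) (-s (k + 1) / 2)) ≤
            1 / (2 * ((k : ℝ) + 1)) := (min_le_right _ _).trans (min_le_left _ _)
        have h3 := mul_le_mul_of_nonneg_left h2 (show (0 : ℝ) ≤ (k : ℝ) + 1 by positivity)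
        refine h3.trans (le_of_eq ?_)
        field_simp
      · exact (min_le_right _ _).trans (min_le_right _ _)
    obtain ⟨J, hJ, F, A, hA, v, ⟨B, N, hC, hv1⟩, hv2⟩ := hN τ hτ J₁
    have hk1 : (0 : ℝ) ≤ (k : ℝ) := Nat.cast_nonneg k
    have hτh : τ ≤ 1 / 2 := by nlinarith
    have hsc : ∀ j ≤ k, (s j - τ) * J ≤ nsc δ (gp γ J) B N j := by
      intro j hj
      have hj0 : 0 ≤ s j := ih j (by omega) (by omega)
      have hj1 : (j : ℝ) ≤ k := Nat.cast_le.2 hj
      have h2 := hv2 j (by nlinarith)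
      rcases hv1 j with h3 | h3
      · rw [knd_lt (show j < M by omega)] at h3
        have : v j ≤ -1 := h3
        linarith
      · rw [knd_lt (show j < M by omega)] at h3
        exact le_trans (mul_le_mul_of_nonneg_right h2 (Nat.cast_nonneg J)) h3
    refine h1 J hJ F A (S.mono hτ1 hA) A (fun _ h => h) (Pe_exp_le hψ.le A)
      (fun i => if i ≤ k then s i - ψ else if i = k + 1 then s (k + 1) + -s (k + 1) / 2 else
        (knd M i).lo) (fun j hj => ?_) ?_ ?_
    · show s j - ψ ≤ if j ≤ k then s j - ψ else _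
      rw [if_pos (by omega)]
    · show _ ≤ if k + 1 ≤ k then _ else if k + 1 = k + 1 then s (k + 1) + -s (k + 1) / 2 else _
      rw [if_neg (by omega), if_pos rfl]
    · refine ⟨_, _, hC.shr hk, fun i => ?_⟩
      show (if i ≤ k then s i - ψ else if i = k + 1 then s (k + 1) + -s (k + 1) / 2 else
        (knd M i).lo) ≤ _ ∨ (knd M i).at δ (gp γ J) F A _ _
        (if i ≤ k then s i - ψ else if i = k + 1 then s (k + 1) + -s (k + 1) / 2 else
        (knd M i).lo)
      rcases lt_trichotomy i (k + 1) with hi | hi | hi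
      · rw [if_pos (by omega), knd_lt (hi.trans hk)]
        refine Or.inr ?_
        show (s i - ψ) * J ≤ nsc δ (gp γ J) _ _ i
        have := hsc i (by omega)
        unfold nsc sco at this ⊢
        rw [rep_lt hi, repN_lt hi]
        refine le_trans (mul_le_mul_of_nonneg_right (by linarith) (Nat.cast_nonneg J)) this
      · subst hi
        rw [if_neg (by omega), if_pos rfl, knd_lt hk]
        refine Or.inr ?_
        show (s (k + 1) + -s (k + 1) / 2) * J ≤ nsc δ (gp γ J) _ _ (k + 1)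
        have e0 := hsc k le_rfl
        have hk0 := ih k (by omega) (by omega)
        have e1 := rep_ge (B := B) (k := k + 1) (B' := (B k).sh (gp γ J)) (g := gp γ J) 0
        have e2 := repN_ge (N := N) (k := k + 1) (L := N k + 2 * (gp γ J : ℝ) * Real.log 2)
          (g := gp γ J) 0
        rw [Nat.add_zero] at e1 e2
        obtain ⟨c1, c2⟩ := (hC.ok k (by omega)).le_sh (gp γ J)
        have c3 : ((B k).q : ℝ) ≤ ((B k).sh (gp γ J)).q := Nat.cast_le.2 c1
        have c4 : ((B k).n : ℝ) ≤ ((B k).sh (gp γ J)).n := Nat.cast_le.2 c2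
        unfold nsc sco at e0 ⊢
        rw [e1, e2]
        show _ ≤ ((((B k).sh (gp γ J)).q : ℝ) + ((B k).sh (gp γ J)).n) * Real.log 2 -
          (N k + 2 * (gp γ J : ℝ) * Real.log 2 + ((0 : ℕ) : ℝ) * _) / δ +
          (((k + 1 : ℕ) : ℕ) : ℝ) * _ / δ
        have e3 : (N k + 2 * (gp γ J : ℝ) * Real.log 2 + ((0 : ℕ) : ℝ) *
            (2 * (gp γ J : ℝ) * Real.log 2)) / δ = N k / δ +
            (2 * (gp γ J : ℝ) * Real.log 2) / δ := by
          rw [Nat.cast_zero, zero_mul, add_zero, add_div]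
        have e4 : (((k + 1 : ℕ) : ℕ) : ℝ) * (2 * (gp γ J : ℝ) * Real.log 2) / δ =
            (k : ℝ) * (2 * (gp γ J : ℝ) * Real.log 2) / δ +
            (2 * (gp γ J : ℝ) * Real.log 2) / δ := by
          push_cast
          rw [add_mul, one_mul, add_div]
        rw [e3, e4]
        have e5 : (((B k).q : ℝ) + (B k).n) * Real.log 2 ≤
            ((((B k).sh (gp γ J)).q : ℝ) + ((B k).sh (gp γ J)).n) * Real.log 2 :=
          mul_le_mul_of_nonneg_right (by linarith) hl2.le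
        have e6 : (s (k + 1) + -s (k + 1) / 2) * (J : ℝ) ≤ (s k - τ) * J :=
          mul_le_mul_of_nonneg_right (by linarith) (Nat.cast_nonneg J)
        linarith
      · rw [if_neg (by omega), if_neg (by omega)]
        exact Or.inl le_rfl

/-! ### The data of one family -/

/-- The decoration of one family at the class numbers `s`, up to `ψ`. -/
def Dat {J : ℕ} (δ γ : ℝ) (M : ℕ) (s : ℕ → ℝ) (ψ : ℝ) (F : Fam 2 J) (A : F.Ω → Prop)
    (B : ℕ → Bx F) (N : ℕ → ℝ) : Prop :=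
  Chn F A M (gp γ J) B N ∧
    ∀ i : ℕ, ((i : ℝ) + 1) * ψ ≤ 1 → (knd M i).at δ (gp γ J) F A B N (s i - ψ)

theorem Dat.mono {J : ℕ} {δ γ : ℝ} {M : ℕ} {s : ℕ → ℝ} {ψ ψ' : ℝ} {F : Fam 2 J}
    {A : F.Ω → Prop} {B : ℕ → Bx F} {N : ℕ → ℝ} (h : Dat δ γ M s ψ F A B N) (hψ : ψ ≤ ψ') :
    Dat δ γ M s ψ' F A B N :=
  ⟨h.1, fun i hi => (h.2 i (le_trans (mul_le_mul_of_nonneg_left hψ (by positivity)) hi)).anti
    (by linarith)⟩

theorem Dat.sub {J : ℕ} {δ γ : ℝ} {M : ℕ} {s : ℕ → ℝ} {ψ : ℝ} {F : Fam 2 J}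
    {A E : F.Ω → Prop} {B : ℕ → Bx F} {N : ℕ → ℝ} (h : Dat δ γ M s ψ F A B N)
    (hE : ∀ ω, E ω → A ω) : Dat δ γ M s ψ F E B N :=
  ⟨h.1.sub hE, fun i hi => (h.2 i hi).sub hE⟩

/-- The families of the subclass have such decorations. -/
theorem dat_of {δ γ : ℝ} {M : ℕ} {S : PCl 2} {s : ℕ → ℝ} (hs : ∀ k < M, 0 ≤ s k) {τ : ℝ}
    (hτ1 : τ < 1) {J : ℕ} (hJ : 2 ≤ J) {F : Fam 2 J} {A : F.Ω → Prop}
    (hA : (S.sl ((bdec δ γ M).sld s)).St τ J F A) : ∃ B N, Dat δ γ M s τ F A B N := by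
  obtain ⟨-, v, ⟨B, N, hC, h1⟩, h2⟩ := hA
  refine ⟨B, N, hC, fun i hi => ?_⟩
  have h3 := h2 i hi
  rcases h1 i with h4 | h4
  · by_cases hk : i < M
    · rw [knd_lt hk] at h4
      have h5 : v i ≤ -1 := h4
      have := hs i hk
      linarith
    · have hsc : ∀ k, knd M i ≠ .sc k := by
        intro k hcon
        unfold knd at hcon
        rw [if_neg hk] at hcon
        revert hcon
        rcases (Encodable.decode (i - M) : Option (Fin 4 × ℕ × ℚ)) with _ | ⟨t, k', r⟩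
        · intro hcon
          cases hcon
        · dsimp only
          by_cases hk' : k' < M
          · rw [if_pos hk']
            fin_cases t <;> intro hcon <;> cases hcon
          · rw [if_neg hk']
            intro hcon
            cases hcon
      have hJ' : (2 : ℝ) ≤ J := by exact_mod_cast hJ
      have hl3 : Real.log 3 ≤ 2 := by
        have := Real.log_le_sub_one_of_pos (show (0 : ℝ) < 3 by norm_num)
        linarith
      exact (Knd.at.low hC (knd_lev M i) hsc (hl3.trans hJ')).anti (h3.trans h4)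
  · exact h4.anti h3

/-- The price of the labels. -/
theorem price {δ γ : ℝ} (hδ : 0 < δ) (hγ : 0 ≤ γ) {M : ℕ} {s : ℕ → ℝ} {k : ℕ} (hk : k < M)
    (hs : 0 ≤ s k) {ψ : ℝ} {J : ℕ} {F : Fam 2 J} {A : F.Ω → Prop} {B : ℕ → Bx F} {N : ℕ → ℝ}
    (hC : Chn F A M (gp γ J) B N) (h : (s k - ψ) * J ≤ nsc δ (gp γ J) B N k) :
    N k ≤ (2 * δ + 2 * M * γ + δ * ψ) * J := by
  have hl2 : 0 < Real.log 2 := Real.log_pos (by norm_num)
  have hl21 : Real.log 2 ≤ 1 := by
    have := Real.log_le_sub_one_of_pos (show (0 : ℝ) < 2 by norm_num)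
    linarith
  have hJ0 : (0 : ℝ) ≤ J := Nat.cast_nonneg J
  have h1 : ((B k).q : ℝ) ≤ J := Nat.cast_le.2 ((hC.ok k hk).le.trans (hC.ok k hk).leJ)
  have h2 : ((B k).n : ℝ) ≤ J := Nat.cast_le.2 (hC.ok k hk).leJ
  have hq0 : (0 : ℝ) ≤ (B k).q := Nat.cast_nonneg _
  have hn0 : (0 : ℝ) ≤ (B k).n := Nat.cast_nonneg _
  unfold nsc sco at h
  have e1 : (((B k).q : ℝ) + (B k).n) * Real.log 2 ≤ 2 * J := by nlinarith
  have e2 : (k : ℝ) * (2 * (gp γ J : ℝ) * Real.log 2) ≤ 2 * M * γ * J := by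
    have c1 : (k : ℝ) ≤ M := Nat.cast_le.2 hk.le
    have c2 := gp_le hγ J
    have c3 : (gp γ J : ℝ) * Real.log 2 ≤ γ * J := by
      have : (0 : ℝ) ≤ gp γ J := Nat.cast_nonneg _
      nlinarith
    have c4 : (0 : ℝ) ≤ (gp γ J : ℝ) * Real.log 2 := by positivity
    calc (k : ℝ) * (2 * (gp γ J : ℝ) * Real.log 2) = 2 * (k * ((gp γ J : ℝ) * Real.log 2)) := by
          ring
      _ ≤ 2 * (M * (γ * J)) := by
          refine mul_le_mul_of_nonneg_left ?_ (by norm_num)
          exact mul_le_mul c1 c3 c4 (Nat.cast_nonneg M)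
      _ = _ := by ring
  have e3 : -(ψ * (J : ℝ)) ≤ (s k - ψ) * J := by nlinarith
  have e4 : N k / δ ≤ 2 * J + 2 * M * γ * J / δ + ψ * J := by
    have : (k : ℝ) * (2 * (gp γ J : ℝ) * Real.log 2) / δ ≤ 2 * M * γ * J / δ :=
      div_le_div_of_nonneg_right e2 hδ.le
    linarith
  have e5 := mul_le_mul_of_nonneg_right e4 hδ.le
  rw [div_mul_cancel₀ _ hδ.ne'] at e5
  refine e5.trans (le_of_eq ?_)
  field_simp

/-- The labels up to level `k` have small entropy given the exact point, for every law on `A`. -/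
theorem price_ent {M g : ℕ} {k : ℕ} (hk : k < M) {J : ℕ} {F : Fam 2 J} {A : F.Ω → Prop}
    {B : ℕ → Bx F} {N : ℕ → ℝ} (hC : Chn F A M g B N) {p : F.Ω → ℝ} (hp : IsLaw p)
    (hA : ∀ ω, 0 < p ω → On F A ω) : CH p (clab B k) (pt F) ≤ N k := by
  have := (hC.cnt k hk).entropy hp hA
  rwa [Real.log_exp] at this

/-- **Coordinates are not exceeded** by the same chain on large events. -/
theorem bar_at {δ γ : ℝ} {M : ℕ} {S : PCl 2} {s : ℕ → ℝ} {i : ℕ}
    (hb : Bar S (bdec δ γ M) i s) : ∀ h > 0, ∃ ψ > 0, ∃ J₁ : ℕ, ∀ J ≥ J₁,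
    ∀ (F : Fam 2 J) (A : F.Ω → Prop), S.St ψ J F A → ∀ (B : ℕ → Bx F) (N : ℕ → ℝ),
      Dat δ γ M s ψ F A B N → ∀ E : F.Ω → Prop, Sub E A →
      Real.exp (-(ψ * J)) * Pe F.p A ≤ Pe F.p E →
        ¬ (knd M i).at δ (gp γ J) F E B N (s i + h) := by
  intro h hh
  obtain ⟨ψ, hψ, J₁, h1⟩ := hb h hh
  have hi0 : (0 : ℝ) < (i : ℝ) + 2 := by positivity
  refine ⟨min ψ (1 / ((i : ℝ) + 2)), lt_min hψ (by positivity), J₁,
    fun J hJ F A hA B N hD E hE hP hcon => ?_⟩
  refine h1 J hJ F A (S.mono (min_le_left _ _) hA) E hE (le_trans ?_ hP)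
    (fun j => if j < i then s j - ψ else if j = i then s i + h else (knd M j).lo)
    (fun j hj => ?_) ?_ ?_
  · refine mul_le_mul_of_nonneg_right (Real.exp_le_exp.2 ?_) (Pe_nonneg F.isLaw A)
    have : min ψ (1 / ((i : ℝ) + 2)) * J ≤ ψ * J :=
      mul_le_mul_of_nonneg_right (min_le_left _ _) (Nat.cast_nonneg J)
    linarith
  · show s j - ψ ≤ if j < i then s j - ψ else _
    rw [if_pos hj]
  · show _ ≤ if i < i then _ else if i = i then s i + h else _
    rw [if_neg (lt_irrefl i), if_pos rfl]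
  · refine ⟨B, N, hD.1.sub hE, fun j => ?_⟩
    show (if j < i then s j - ψ else if j = i then s i + h else (knd M j).lo) ≤ _ ∨
      (knd M j).at δ (gp γ J) F E B N
        (if j < i then s j - ψ else if j = i then s i + h else (knd M j).lo)
    rcases lt_trichotomy j i with hj | hj | hj
    · rw [if_pos hj]
      refine Or.inr (((hD.2 j ?_).sub hE).anti ?_)
      · have e1 : ((j : ℝ) + 1) * min ψ (1 / ((i : ℝ) + 2)) ≤
            ((i : ℝ) + 2) * (1 / ((i : ℝ) + 2)) := by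
          have e2 : (j : ℝ) ≤ i := Nat.cast_le.2 hj.le
          refine mul_le_mul (by linarith) (min_le_right _ _)
            (le_min hψ.le (by positivity)) (by positivity)
        refine e1.trans (le_of_eq ?_)
        field_simp
      · have := min_le_left ψ (1 / ((i : ℝ) + 2))
        linarith
    · subst hj
      rw [if_neg (lt_irrefl j), if_pos rfl]
      exact Or.inr hcon
    · rw [if_neg (by omega), if_neg (by omega)]
      exact Or.inl le_rfl

/-! ### The class numbers -/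

/-- The index of the coordinate. -/
def ix (M : ℕ) (t : Fin 4) (k : ℕ) (r : ℚ) : ℕ := M + Encodable.encode (t, k, r)

theorem knd_ix {M : ℕ} (t : Fin 4) {k : ℕ} (hk : k < M) (r : ℚ) : knd M (ix M t k r) =
    (match t with
      | 0 => .qq k
      | 1 => .nn k
      | 2 => .rot k r
      | 3 => .act k r) := by
  unfold knd ix
  rw [if_neg (by omega), Nat.add_sub_cancel_left, Encodable.encodek]
  dsimp only
  rw [if_pos hk]
  fin_cases t <;> rfl

/-- The class number `q_k`. -/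
def cq (M : ℕ) (s : ℕ → ℝ) (k : ℕ) : ℝ := s (ix M 0 k 0)

/-- The class number `n_k`. -/
def cn (M : ℕ) (s : ℕ → ℝ) (k : ℕ) : ℝ := s (ix M 1 k 0)

/-- The class number `rot_k w`. -/
def crot (M : ℕ) (s : ℕ → ℝ) (k : ℕ) (w : ℚ) : ℝ := s (ix M 2 k w)

/-- The class number `a_k q`. -/
def cact (M : ℕ) (s : ℕ → ℝ) (k : ℕ) (q : ℚ) : ℝ := -s (ix M 3 k q)

end Pool.PC
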