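import Pool.Agent.H54.PC.Box

/-!
# Plan C: exactness and activity in terms of the class numbers
-/

set_option autoImplicit false

namespace Pool.PC

open Finset Real
open Pool.Agent.H49.Ent Pool.Agent.H32.Dense Pool.STK Pool.KA Pool.K2S Pool.PB Pool.KSAT

theorem Dat.scs {J : ℕ} {δ γ : ℝ} {M : ℕ} {s : ℕ → ℝ} {ψ : ℝ} {F : Fam 2 J}
    {A : F.Ω → Prop} {B : ℕ → Bx F} {N : ℕ → ℝ} (h : Dat δ γ M s ψ F A B N) {k : ℕ}
    (hk : k < M) (hψ : ((k : ℝ) + 1) * ψ ≤ 1) (hψ0 : 0 ≤ ψ) : Scs δ γ s ψ k B N := by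
  intro j hj
  have hj' : (j : ℝ) ≤ k := Nat.cast_le.2 hj
  have := h.2 j (le_trans (mul_le_mul_of_nonneg_right (by linarith only [hj']) hψ0) hψ)
  rwa [knd_lt (lt_of_le_of_lt hj hk)] at this

/-- **(EXA)** in terms of the class number `n`. -/
theorem exa_dat {δ γ : ℝ} {M : ℕ} {S : PCl 2} {s : ℕ → ℝ} {k : ℕ} (hk : k < M)
    (hb : ∀ i, Bar S (bdec δ γ M) i s)
    (hpos : ∀ (τ : ℝ) (J : ℕ) (F : Fam 2 J) (A : F.Ω → Prop), S.St τ J F A → 0 < Pe F.p A) :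
    ∀ h : ℝ, 0 < h → cn M s k + 2 * h ≤ 1 → ∃ ψ > 0, ∃ J₁ : ℕ, ∀ J ≥ J₁,
    ∀ (F : Fam 2 J) (A : F.Ω → Prop), S.St ψ J F A → ∀ (B : ℕ → Bx F) (N : ℕ → ℝ),
      Dat δ γ M s ψ F A B N →
      ∀ E : F.Ω → Prop, Sub E A → Real.exp (-(ψ * J)) * Pe F.p A ≤ Pe F.p E →
        ¬ NearLine F (B k) E (ptk B k) ⌊h * J⌋₊ := by
  intro h hh hn
  obtain ⟨ψ₁, hψ₁, J₁, h1⟩ := exa hk (hb k) hpos h hh
  obtain ⟨ψ₂, hψ₂, J₂, h2⟩ := bar_at (hb (ix M 1 k 0)) h hh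
  obtain ⟨ψ, hψ, e1, e2, e3⟩ : ∃ ψ > 0, ψ ≤ ψ₁ ∧ ψ ≤ ψ₂ ∧ ((k : ℝ) + 1) * ψ ≤ 1 := by
    refine ⟨min (min ψ₁ ψ₂) (1 / ((k : ℝ) + 1)), lt_min (lt_min hψ₁ hψ₂) (by positivity),
      (min_le_left _ _).trans (min_le_left _ _), (min_le_left _ _).trans (min_le_right _ _), ?_⟩
    have := mul_le_mul_of_nonneg_left (min_le_right (min ψ₁ ψ₂) (1 / ((k : ℝ) + 1)))
      (show (0 : ℝ) ≤ (k : ℝ) + 1 by positivity)
    refine this.trans (le_of_eq ?_)
    field_simp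
  refine ⟨ψ, hψ, max J₁ J₂, fun J hJ F A hA B N hD E hE hP => ?_⟩
  have hJr : (0 : ℝ) ≤ J := Nat.cast_nonneg J
  refine h1 J ((le_max_left _ _).trans hJ) F A (S.mono e1 hA) B N hD.1 (fun j hj => ?_) E hE
    (Evt.mono ⟨hE, hP⟩ e1).2 ?_
  · refine le_trans (mul_le_mul_of_nonneg_right ?_ hJr) (hD.scs hk e3 hψ.le j hj)
    linarith only [e1]
  · have k1 := h2 J ((le_max_right _ _).trans hJ) F A (S.mono e2 hA) B N (hD.mono e2) A
      (fun _ h => h) (Evt.refl hψ₂.le).2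
    rw [knd_ix 1 hk] at k1
    have k2 : ((B k).n : ℝ) < (cn M s k + h) * J := not_le.1 k1
    have k3 : (⌊h * J⌋₊ : ℝ) ≤ h * J := Nat.floor_le (by positivity)
    have k4 : (((B k).n + ⌊h * J⌋₊ : ℕ) : ℝ) ≤ J := by
      push_cast
      nlinarith only [k2, k3, hn]
    exact_mod_cast k4

/-- **(R5)** The activity in terms of the class numbers. -/
theorem act_num {δ γ : ℝ} (hδ : 0 < δ) {M : ℕ} {S : PCl 2} {s : ℕ → ℝ} {k : ℕ} (hk : k < M)
    (hs : ∀ i, (knd M i).lo ≤ s i ∧ s i ≤ (knd M i).up δ γ) (hs0 : ∀ k < M, 0 ≤ s k)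
    (hN : (S.sl ((bdec δ γ M).sld s)).Ne) (hb : ∀ i, Bar S (bdec δ γ M) i s)
    {q : ℚ} (hq : cq M s k ≤ q) (hq1 : (q : ℝ) ≤ 1) :
    δ * ((q : ℝ) - cq M s k) * Real.log 2 ≤ cact M s k q := by
  have hl2 : 0 < Real.log 2 := Real.log_pos (by norm_num)
  have hl21 : Real.log 2 ≤ 1 := by
    have := Real.log_le_sub_one_of_pos (show (0 : ℝ) < 2 by norm_num)
    linarith only [this]
  have ha0 : 0 ≤ cact M s k q := by
    have := (hs (ix M 3 k q)).2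
    rw [knd_ix 3 hk] at this
    have h2 : s (ix M 3 k q) ≤ 0 := this
    unfold cact
    linarith only [h2]
  have hq0 : (0 : ℝ) ≤ q := by
    have := (hs (ix M 0 k 0)).1
    rw [knd_ix 0 hk] at this
    have h2 : 0 ≤ s (ix M 0 k 0) := this
    exact h2.trans hq
  refine le_of_forall_pos_le_add fun e he => ?_
  -- the tolerance
  obtain ⟨h, hh, hhe⟩ : ∃ h > 0, (3 + δ) * h ≤ e / 2 := by
    refine ⟨e / 2 / (3 + δ), by positivity, le_of_eq ?_⟩
    field_simp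
  obtain ⟨ψ₁, hψ₁, J₁, h1⟩ := act (M := M) (γ := γ) hδ hk (hb k) h hh
  obtain ⟨ψ₂, hψ₂, J₂, h2⟩ := bar_at (hb (ix M 0 k 0)) h hh
  obtain ⟨I, hI1, hI2, hI3⟩ : ∃ I : ℕ, ix M 0 k 0 ≤ I ∧ ix M 3 k q ≤ I ∧ k ≤ I :=
    ⟨max (max (ix M 0 k 0) (ix M 3 k q)) k, (le_max_left _ _).trans (le_max_left _ _),
      (le_max_right _ _).trans (le_max_left _ _), le_max_right _ _⟩
  obtain ⟨ψ, hψ, e1, e2, e3, e4, e5⟩ : ∃ ψ > 0, ψ ≤ ψ₁ ∧ ψ ≤ ψ₂ ∧ ((I : ℝ) + 1) * ψ ≤ 1 ∧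
      ψ ≤ h ∧ ψ < 1 := by
    refine ⟨min (min ψ₁ ψ₂) (min (1 / ((I : ℝ) + 1)) (min h (1 / 2))),
      lt_min (lt_min hψ₁ hψ₂) (lt_min (by positivity) (lt_min hh (by norm_num))),
      (min_le_left _ _).trans (min_le_left _ _), (min_le_left _ _).trans (min_le_right _ _),
      ?_, ?_, ?_⟩
    · have := mul_le_mul_of_nonneg_left ((min_le_right (min ψ₁ ψ₂)
        (min (1 / ((I : ℝ) + 1)) (min h (1 / 2)))).trans (min_le_left _ _))
        (show (0 : ℝ) ≤ (I : ℝ) + 1 by positivity)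
      refine this.trans (le_of_eq ?_)
      field_simp
    · exact (min_le_right _ _).trans ((min_le_right _ _).trans (min_le_left _ _))
    · have := (min_le_right (min ψ₁ ψ₂) (min (1 / ((I : ℝ) + 1)) (min h (1 / 2)))).trans
        ((min_le_right _ _).trans (min_le_right _ _))
      linarith only [this]
  obtain ⟨J₃, hJ₃⟩ := exists_nat_gt (δ / (e / 2))
  obtain ⟨J, hJ, F, A, hA⟩ := hN ψ hψ (max (max J₁ J₂) (max J₃ 2))
  have hJ1 : J₁ ≤ J := (le_max_left _ _).trans ((le_max_left _ _).trans hJ)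
  have hJ2 : J₂ ≤ J := (le_max_right _ _).trans ((le_max_left _ _).trans hJ)
  have hJ3 : J₃ ≤ J := (le_max_left _ _).trans ((le_max_right _ _).trans hJ)
  have hJ4 : 2 ≤ J := (le_max_right _ _).trans ((le_max_right _ _).trans hJ)
  have hJr : (0 : ℝ) < J := Nat.cast_pos.2 (by omega)
  obtain ⟨B, N, hD⟩ := dat_of hs0 e5 hJ4 hA
  have hidx : ∀ i ≤ I, ((i : ℝ) + 1) * ψ ≤ 1 := fun i hi => by
    have : (i : ℝ) ≤ I := Nat.cast_le.2 hi
    exact le_trans (mul_le_mul_of_nonneg_right (by linarith only [this]) hψ.le) e3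
  have kq := h2 J hJ2 F A (S.mono e2 hA.1) B N (hD.mono e2) A (fun _ h => h)
    (Evt.refl hψ₂.le).2
  rw [knd_ix 0 hk] at kq
  have kq' : ((B k).q : ℝ) < (cq M s k + h) * J := not_le.1 kq
  have kc := hD.2 _ (hidx _ hI2)
  rw [knd_ix 3 hk] at kc
  have kc' : Cnt F A (ptk B k) (fun ω => ⌊(2 : ℝ) ^ ⌊(q : ℝ) * J⌋₊ * F.d ω (B k).i0⌋)
      (Real.exp (-((s (ix M 3 k q) - ψ) * J))) := kc
  have hfl : ⌊(q : ℝ) * J⌋₊ ≤ J := by
    have : ((⌊(q : ℝ) * J⌋₊ : ℕ) : ℝ) ≤ J := by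
      refine (Nat.floor_le (by positivity)).trans ?_
      nlinarith only [hq1]
    exact_mod_cast this
  have hfl2 : (q : ℝ) * J - 1 < ⌊(q : ℝ) * J⌋₊ := Nat.sub_one_lt_floor _
  have hJ3' : δ < e / 2 * J := by
    have := hJ₃.trans_le (Nat.cast_le.2 hJ3 : (J₃ : ℝ) ≤ J)
    rw [div_lt_iff₀ (by positivity)] at this
    linarith only [this]
  have hfin : δ * ((q : ℝ) - cq M s k) * Real.log 2 * J ≤ (cact M s k q + e) * J := by
    rcases Nat.lt_or_ge ⌊(q : ℝ) * J⌋₊ (B k).q with hlt | hge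
    · -- no digits
      have h5 : ((⌊(q : ℝ) * J⌋₊ : ℕ) : ℝ) + 1 ≤ (B k).q := by exact_mod_cast hlt
      have h6 : ((q : ℝ) - cq M s k) * J ≤ h * J := by nlinarith only [kq', hfl2, h5]
      have h7 : δ * Real.log 2 * (((q : ℝ) - cq M s k) * J) ≤ δ * Real.log 2 * (h * J) :=
        mul_le_mul_of_nonneg_left h6 (by positivity)
      have h8 : δ * Real.log 2 * (h * J) ≤ δ * h * J := by
        have : δ * (h * J) * Real.log 2 ≤ δ * (h * J) * 1 :=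
          mul_le_mul_of_nonneg_left hl21 (by positivity)
        linarith only [this]
      have h9 : δ * h ≤ e := by nlinarith only [he, hh, hhe]
      have h10 : δ * h * J ≤ e * J := mul_le_mul_of_nonneg_right h9 hJr.le
      have h11 : 0 ≤ cact M s k q * J := mul_nonneg ha0 hJr.le
      nlinarith only [h7, h8, h10, h11]
    · obtain ⟨x, hx⟩ := Nat.exists_eq_add_of_le hge
      have hL : Real.exp (-((s (ix M 3 k q) - ψ) * J)) =
          Real.exp ((cact M s k q + ψ) * J) := by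
        unfold cact
        congr 1
        ring
      rw [hL] at kc'
      have k5 := h1 J hJ1 F A (S.mono e1 hA.1) B N hD.1 (fun j hj => by
        refine le_trans (mul_le_mul_of_nonneg_right ?_ hJr.le)
          (hD.scs hk (hidx k hI3) hψ.le j hj)
        linarith only [e1]) A (fun _ h => h) (Evt.refl hψ₁.le).2 x ((cact M s k q + ψ) * J)
        (by rw [← hx]; exact hfl) (by positivity) (by rw [← hx]; exact kc')
      have k6 : ((⌊(q : ℝ) * J⌋₊ : ℕ) : ℝ) = (B k).q + x := by exact_mod_cast hx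
      have k7 : ((q : ℝ) - cq M s k) * J - h * J - 1 ≤ x := by nlinarith only [kq', hfl2, k6]
      have k8 : δ * Real.log 2 * (((q : ℝ) - cq M s k) * J - h * J - 1) ≤
          δ * Real.log 2 * x := mul_le_mul_of_nonneg_left k7 (by positivity)
      have k9 : δ * Real.log 2 * (h * J + 1) ≤ δ * (h * J + 1) := by
        have : δ * (h * J + 1) * Real.log 2 ≤ δ * (h * J + 1) * 1 :=
          mul_le_mul_of_nonneg_left hl21 (by positivity)
        linarith only [this]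
      have k10 : ψ * (J : ℝ) ≤ h * J := mul_le_mul_of_nonneg_right e4 hJr.le
      have k11 : (3 + δ) * h * J ≤ e / 2 * J := mul_le_mul_of_nonneg_right hhe hJr.le
      have k12 : 0 ≤ h * J := by positivity
      nlinarith only [hJ3', k5, k8, k9, k10, k11, k12]
  exact le_of_mul_le_mul_right hfin hJr

end Pool.PC
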